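import Pool.Agent.LibHL18.Series

/-!
Asymptotics of the final forms.
-/

namespace Pool.Agent.LibHL18

open MvPolynomial

/-- uniform big O with polynomial dependence on `N` -/
def BO (f g : ℝ → ℝ → ℝ → ℝ → ℝ → ℝ) : Prop := ∃ C : ℝ, ∃ c : ℕ, 0 ≤ C ∧
  ∀ A B N z r : ℝ, Adm A B N z → |r| ≤ 1 → |f A B N z r| ≤ C * N ^ c * g A B N z r

/-- nonnegative bounding function -/
def NN (g : ℝ → ℝ → ℝ → ℝ → ℝ → ℝ) : Prop :=
  ∀ A B N z r : ℝ, Adm A B N z → |r| ≤ 1 → 0 ≤ g A B N z r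

lemma BO.add {f1 f2 g : ℝ → ℝ → ℝ → ℝ → ℝ → ℝ} (hg : NN g) (h1 : BO f1 g) (h2 : BO f2 g) :
    BO (fun A B N z r => f1 A B N z r + f2 A B N z r) g := by
  obtain ⟨C1, c1, k1, H1⟩ := h1
  obtain ⟨C2, c2, k2, H2⟩ := h2
  refine ⟨C1 + C2, max c1 c2, by positivity, ?_⟩
  intro A B N z r H hr
  have hN := H.hN
  have e1 : N ^ c1 ≤ N ^ max c1 c2 := pow_le_pow_right₀ hN (le_max_left _ _)
  have e2 : N ^ c2 ≤ N ^ max c1 c2 := pow_le_pow_right₀ hN (le_max_right _ _)
  have hg0 := hg A B N z r H hr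
  refine (abs_add_le _ _).trans ((add_le_add (H1 A B N z r H hr) (H2 A B N z r H hr)).trans ?_)
  rw [← add_mul]
  apply mul_le_mul_of_nonneg_right _ hg0
  rw [add_mul]
  exact add_le_add (mul_le_mul_of_nonneg_left e1 k1) (mul_le_mul_of_nonneg_left e2 k2)

lemma BO.zero {g : ℝ → ℝ → ℝ → ℝ → ℝ → ℝ} : BO (fun _ _ _ _ _ => 0) g := by
  refine ⟨0, 0, le_refl _, ?_⟩
  intro A B N z r H hr
  simp

lemma BO.sum {ι : Type} {g : ℝ → ℝ → ℝ → ℝ → ℝ → ℝ} (hg : NN g) (S : Finset ι)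
    (f : ι → ℝ → ℝ → ℝ → ℝ → ℝ → ℝ) (hf : ∀ i ∈ S, BO (f i) g) :
    BO (fun A B N z r => ∑ i ∈ S, f i A B N z r) g := by
  classical
  induction S using Finset.induction_on with
  | empty => simpa using BO.zero
  | insert a S ha ih =>
    have h1 := hf a (Finset.mem_insert_self _ _)
    have h2 := ih (fun i hi => hf i (Finset.mem_insert_of_mem hi))
    have := BO.add hg h1 h2
    simpa [Finset.sum_insert ha] using this

lemma BO.mul {f1 f2 g1 g2 : ℝ → ℝ → ℝ → ℝ → ℝ → ℝ} (h1 : BO f1 g1) (h2 : BO f2 g2) :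
    BO (fun A B N z r => f1 A B N z r * f2 A B N z r)
      (fun A B N z r => g1 A B N z r * g2 A B N z r) := by
  obtain ⟨C1, c1, k1, H1⟩ := h1
  obtain ⟨C2, c2, k2, H2⟩ := h2
  refine ⟨C1 * C2, c1 + c2, by positivity, ?_⟩
  intro A B N z r H hr
  simp only
  rw [abs_mul]
  have a1 := H1 A B N z r H hr
  have a2 := H2 A B N z r H hr
  calc |f1 A B N z r| * |f2 A B N z r| ≤ (C1 * N ^ c1 * g1 A B N z r) * (C2 * N ^ c2 * g2 A B N z r) :=
        mul_le_mul a1 a2 (abs_nonneg _) ((abs_nonneg _).trans a1)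
    _ = C1 * C2 * N ^ (c1 + c2) * (g1 A B N z r * g2 A B N z r) := by rw [pow_add]; ring

lemma BO.mono {f g g' : ℝ → ℝ → ℝ → ℝ → ℝ → ℝ} (h1 : BO f g)
    (hgg : ∀ A B N z r : ℝ, Adm A B N z → |r| ≤ 1 → g A B N z r ≤ g' A B N z r) : BO f g' := by
  obtain ⟨C1, c1, k1, H1⟩ := h1
  refine ⟨C1, c1, k1, ?_⟩
  intro A B N z r H hr
  have hN := H.hN
  refine (H1 A B N z r H hr).trans ?_
  apply mul_le_mul_of_nonneg_left (hgg A B N z r H hr)
  positivity

lemma BO.congr {f f' g : ℝ → ℝ → ℝ → ℝ → ℝ → ℝ} (h1 : BO f g)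
    (hff : ∀ A B N z r : ℝ, Adm A B N z → |r| ≤ 1 → f' A B N z r = f A B N z r) : BO f' g := by
  obtain ⟨C1, c1, k1, H1⟩ := h1
  refine ⟨C1, c1, k1, ?_⟩
  intro A B N z r H hr
  rw [hff A B N z r H hr]
  exact H1 A B N z r H hr

lemma bo_poly (p : R2) : BO (fun A B _ _ _ => aeval ![A, B] p) (fun _ _ _ _ _ => 1) := by
  obtain ⟨C, c, hC, H⟩ := poly_bound p
  refine ⟨C, c, hC, ?_⟩
  intro A B N z r hA hr
  rw [mul_one]
  exact H A B N hA.hN hA.hA hA.hB

/-- remainder of the forms at `t = sqrt x` -/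
lemma bo_rem (n : ℕ) : BO (fun A B _ z _ => aeval (cu A B z) (h n) - z⁻¹ * aeval ![A, B] (aa n)
    - aeval ![A, B] (bb n)) (fun _ _ _ z _ => z) := by
  obtain ⟨C, c, hC, H⟩ := expansion (lam n)
  refine ⟨C, c, hC, ?_⟩
  intro A B N z r hA hr
  have hz := hA.hz
  have e := h_cu A B n z hz hA.w_pos
  have k := H A B N z hA
  rw [← e] at k
  simp only [aa, bb]
  have : z * (aeval (cu A B z) (h n) - z⁻¹ * aeval ![A, B] (ev0 (lam n))
      - aeval ![A, B] (ev0 (DL (lam n)))) = z * aeval (cu A B z) (h n)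
        - aeval ![A, B] (ev0 (lam n)) - z * aeval ![A, B] (ev0 (DL (lam n))) := by
    field_simp
  rw [← this, abs_mul, abs_of_pos hz] at k
  have : z * |aeval (cu A B z) (h n) - z⁻¹ * aeval ![A, B] (ev0 (lam n))
      - aeval ![A, B] (ev0 (DL (lam n)))| ≤ z * (C * N ^ c * z) := by
    calc _ ≤ C * N ^ c * z ^ 2 := k
      _ = z * (C * N ^ c * z) := by ring
  exact le_of_mul_le_mul_left this hz

/-- the value of `y` -/
noncomputable def yv (A B z : ℝ) : ℝ := Real.sqrt (1 + A * z ^ 4 + B * z ^ 6) * (z⁻¹) ^ 3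

/-- asymptotics of the final forms -/
theorem asymp (m : ℕ) : BO (fun A B _ z r => aeval ![z⁻¹ + r, (z⁻¹) ^ 2, yv A B z, A, B] (FF (m + 2))
    - (z⁻¹ * r ^ (m + 1) / ((m + 1).factorial : ℝ) + aeval ![A, B] (pi' (m + 1)) * r
      + aeval ![A, B] (pi' m) * (r ^ 2 / 2))) (fun _ _ _ z r => |r| ^ 3 + z) := by
  have hNN : NN (fun _ _ _ z r => |r| ^ 3 + z) := by
    intro A B N z r H hr
    have := H.hz
    positivity
  -- the two parts
  have hr : ∀ k : ℕ, BO (fun _ _ _ _ r => r ^ k / (k.factorial : ℝ)) (fun _ _ _ _ _ => 1) := by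
    intro k
    refine ⟨1, 0, by norm_num, ?_⟩
    intro A B N z r H hr
    rw [abs_div, abs_pow]
    have h1 : |r| ^ k ≤ 1 := pow_le_one₀ (abs_nonneg _) hr
    have h2 : (1 : ℝ) ≤ |(k.factorial : ℝ)| := by
      rw [abs_of_nonneg (by positivity)]
      exact_mod_cast Nat.factorial_pos k
    have : |r| ^ k / |(k.factorial : ℝ)| ≤ 1 := by
      rw [div_le_one (by linarith)]; linarith
    simpa using this
  have hr3 : ∀ k : ℕ, BO (fun _ _ _ _ r => r ^ (k + 3) / ((k + 3).factorial : ℝ))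
      (fun _ _ _ z r => |r| ^ 3 + z) := by
    intro k
    refine ⟨1, 0, by norm_num, ?_⟩
    intro A B N z r H hr
    rw [abs_div, abs_pow]
    have h1 : |r| ^ (k + 3) ≤ |r| ^ 3 := pow_le_pow_of_le_one (abs_nonneg _) hr (by omega)
    have h2 : (1 : ℝ) ≤ |((k + 3).factorial : ℝ)| := by
      rw [abs_of_nonneg (by positivity)]
      exact_mod_cast Nat.factorial_pos (k + 3)
    have h0 : 0 ≤ |r| ^ (k + 3) := by positivity
    have : |r| ^ (k + 3) / |((k + 3).factorial : ℝ)| ≤ |r| ^ (k + 3) :=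
      div_le_self h0 h2
    have hz := H.hz
    simp only [pow_zero, one_mul, mul_one]
    linarith
  have part1 : BO (fun A B _ z r => ∑ i ∈ Finset.range m, r ^ (i + 3) / ((i + 3).factorial : ℝ) *
      aeval ![A, B] (pi' (m + 2 - (i + 3)))) (fun _ _ _ z r => |r| ^ 3 + z) := by
    apply BO.sum hNN
    intro i _
    refine BO.mono (BO.mul (hr3 i) (bo_poly (pi' (m + 2 - (i + 3))))) ?_
    intro A B N z r _ _
    simp
  have part2 : BO (fun A B _ z r => ∑ ij ∈ Finset.HasAntidiagonal.antidiagonal (m + 2),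
      r ^ ij.1 / (ij.1.factorial : ℝ) * ∑ kl ∈ Finset.HasAntidiagonal.antidiagonal ij.2,
        aeval ![A, B] (PowerSeries.coeff kl.1 TT) *
          (aeval (cu A B z) (h kl.2) - z⁻¹ * aeval ![A, B] (aa kl.2)
            - aeval ![A, B] (bb kl.2))) (fun _ _ _ z r => |r| ^ 3 + z) := by
    have hNz : NN (fun _ _ _ z _ => z) := fun A B N z r H _ => H.hz.le
    apply BO.sum hNN
    intro ij _
    refine BO.mono (BO.mul (hr ij.1) (BO.sum hNz _ _ (fun kl _ => BO.mono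
      (BO.mul (bo_poly (PowerSeries.coeff kl.1 TT)) (bo_rem kl.2)) ?_))) ?_
    · intro A B N z r _ _; simp
    · intro A B N z r H _
      have : 0 ≤ |r| ^ 3 := by positivity
      linarith
  refine BO.congr (BO.add hNN part1 part2) ?_
  intro A B N z r H hr'
  have hcu : cu A B z = ![z⁻¹, (z⁻¹) ^ 2, yv A B z, A, B] := rfl
  rw [FF_eq A B (yv A B z) z⁻¹ r (m + 2)]
  simp only [hcu]
  have s1 : ∑ ij ∈ Finset.HasAntidiagonal.antidiagonal (m + 2), r ^ ij.1 / (ij.1.factorial : ℝ) *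
      (z⁻¹ * (if ij.2 = 1 then 1 else 0)) = z⁻¹ * r ^ (m + 1) / ((m + 1).factorial : ℝ) := by
    rw [Finset.sum_eq_single (m + 1, 1)]
    · simp; ring
    · rintro ⟨i, j⟩ hij hne
      have hij' := Finset.HasAntidiagonal.mem_antidiagonal.mp hij
      simp only at hij'
      have : j ≠ 1 := by
        rintro rfl
        apply hne
        have : i = m + 1 := by omega
        rw [this]
      simp [this]
    · intro hnot
      exact absurd (Finset.HasAntidiagonal.mem_antidiagonal.mpr (by rfl)) hnot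
  have s2 : ∑ ij ∈ Finset.HasAntidiagonal.antidiagonal (m + 2), r ^ ij.1 / (ij.1.factorial : ℝ) *
      aeval ![A, B] (pi' ij.2) = ∑ i ∈ Finset.range m, r ^ (i + 3) / ((i + 3).factorial : ℝ) *
      aeval ![A, B] (pi' (m + 2 - (i + 3))) + aeval ![A, B] (pi' m) * (r ^ 2 / 2)
      + aeval ![A, B] (pi' (m + 1)) * r + aeval ![A, B] (pi' (m + 2)) := by
    rw [Finset.Nat.sum_antidiagonal_eq_sum_range_succ_mk]
    rw [Finset.sum_range_succ', Finset.sum_range_succ', Finset.sum_range_succ']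
    simp only [Nat.factorial]
    have e1 : m + 2 - (0 + 1) = m + 1 := by omega
    have e2 : m + 2 - (0 + 1 + 1) = m := by omega
    rw [e1, e2]
    simp only [Nat.sub_zero]
    push_cast
    ring
  have s3 : ∑ ij ∈ Finset.HasAntidiagonal.antidiagonal (m + 2), r ^ ij.1 / (ij.1.factorial : ℝ) *
        (z⁻¹ * (if ij.2 = 1 then 1 else 0) + aeval ![A, B] (pi' ij.2) +
          ∑ kl ∈ Finset.HasAntidiagonal.antidiagonal ij.2,
            aeval ![A, B] (PowerSeries.coeff kl.1 TT) *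
              (aeval ![z⁻¹, (z⁻¹) ^ 2, yv A B z, A, B] (h kl.2) - z⁻¹ * aeval ![A, B] (aa kl.2)
                - aeval ![A, B] (bb kl.2))) =
      ∑ ij ∈ Finset.HasAntidiagonal.antidiagonal (m + 2), r ^ ij.1 / (ij.1.factorial : ℝ) *
        (z⁻¹ * (if ij.2 = 1 then 1 else 0)) +
      ∑ ij ∈ Finset.HasAntidiagonal.antidiagonal (m + 2), r ^ ij.1 / (ij.1.factorial : ℝ) *
        aeval ![A, B] (pi' ij.2) +
      ∑ ij ∈ Finset.HasAntidiagonal.antidiagonal (m + 2), r ^ ij.1 / (ij.1.factorial : ℝ) *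
          ∑ kl ∈ Finset.HasAntidiagonal.antidiagonal ij.2,
            aeval ![A, B] (PowerSeries.coeff kl.1 TT) *
              (aeval ![z⁻¹, (z⁻¹) ^ 2, yv A B z, A, B] (h kl.2) - z⁻¹ * aeval ![A, B] (aa kl.2)
                - aeval ![A, B] (bb kl.2)) := by
    rw [← Finset.sum_add_distrib, ← Finset.sum_add_distrib]
    apply Finset.sum_congr rfl
    intro ij _
    ring
  rw [s3, s1, s2]
  ring

end Pool.Agent.LibHL18
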