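import Pool.Agent.LibHL18.Curve

/-!
Size and integrality of polynomial values.
-/

namespace Pool.Agent.LibHL18

open MvPolynomial

/-- polynomials in `(A, B)` -/
abbrev R2 : Type := MvPolynomial (Fin 2) ℚ

/-- values at `z = 0`, as polynomials in `A, B` -/
noncomputable def ev0 : P5 →ₐ[ℚ] R2 := aeval ![0, 1, C (1 / 2), X 0, X 1]

/-- admissible parameters -/
structure Adm (A B N z : ℝ) : Prop where
  hN : 1 ≤ N
  hA : |A| ≤ N
  hB : |B| ≤ N
  hz : 0 < z
  hs : 4 * N * z ^ 4 ≤ 1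

lemma Adm.z_le {A B N z : ℝ} (H : Adm A B N z) : z ≤ 1 := by
  by_contra hc
  push Not at hc
  have h1 : 1 ≤ z ^ 4 := one_le_pow₀ hc.le
  have := H.hs
  have := H.hN
  nlinarith

lemma Adm.w_lower {A B N z : ℝ} (H : Adm A B N z) : 1 / 2 ≤ 1 + A * z ^ 4 + B * z ^ 6 := by
  have hz := H.hz
  have hz1 := H.z_le
  have h4 : 0 < z ^ 4 := by positivity
  have h64 : z ^ 6 ≤ z ^ 4 := pow_le_pow_of_le_one hz.le hz1 (by norm_num)
  have h6 : 0 < z ^ 6 := by positivity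
  have a1 : -(N * z ^ 4) ≤ A * z ^ 4 := by
    have := (abs_le.mp H.hA).1; nlinarith
  have b1 : -(N * z ^ 4) ≤ B * z ^ 6 := by
    have hb := (abs_le.mp H.hB).1
    have hN := H.hN
    have : -(N * z ^ 6) ≤ B * z ^ 6 := by nlinarith
    nlinarith
  have := H.hs
  linarith

lemma Adm.w_pos {A B N z : ℝ} (H : Adm A B N z) : 0 < 1 + A * z ^ 4 + B * z ^ 6 := by
  linarith [H.w_lower]

lemma poly_bound (p : R2) : ∃ C : ℝ, ∃ c : ℕ, 0 ≤ C ∧ ∀ A B N : ℝ, 1 ≤ N → |A| ≤ N → |B| ≤ N →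
    |aeval ![A, B] p| ≤ C * N ^ c := by
  induction p using MvPolynomial.induction_on with
  | C a =>
    refine ⟨|(a : ℝ)|, 0, abs_nonneg _, ?_⟩
    intro A B N hN hA hB
    simp
  | add p q hp hq =>
    obtain ⟨C1, c1, h1, H1⟩ := hp
    obtain ⟨C2, c2, h2, H2⟩ := hq
    refine ⟨C1 + C2, max c1 c2, by positivity, ?_⟩
    intro A B N hN hA hB
    rw [map_add]
    have e1 : N ^ c1 ≤ N ^ max c1 c2 := pow_le_pow_right₀ hN (le_max_left _ _)
    have e2 : N ^ c2 ≤ N ^ max c1 c2 := pow_le_pow_right₀ hN (le_max_right _ _)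
    calc |aeval ![A, B] p + aeval ![A, B] q| ≤ |aeval ![A, B] p| + |aeval ![A, B] q| :=
          abs_add_le _ _
      _ ≤ C1 * N ^ c1 + C2 * N ^ c2 := add_le_add (H1 A B N hN hA hB) (H2 A B N hN hA hB)
      _ ≤ (C1 + C2) * N ^ max c1 c2 := by
          rw [add_mul]
          exact add_le_add (mul_le_mul_of_nonneg_left e1 h1) (mul_le_mul_of_nonneg_left e2 h2)
  | mul_X p i hp =>
    obtain ⟨C1, c1, h1, H1⟩ := hp
    refine ⟨C1, c1 + 1, h1, ?_⟩
    intro A B N hN hA hB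
    rw [map_mul, abs_mul, aeval_X]
    have hi : |(![A, B] : Fin 2 → ℝ) i| ≤ N := by
      fin_cases i
      · simpa using hA
      · simpa using hB
    calc |aeval ![A, B] p| * |(![A, B] : Fin 2 → ℝ) i| ≤ (C1 * N ^ c1) * N :=
          mul_le_mul (H1 A B N hN hA hB) hi (abs_nonneg _) (by positivity)
      _ = C1 * N ^ (c1 + 1) := by ring

/-- first order expansion at `z = 0` -/
def Ex (p : P5) : Prop := ∃ C : ℝ, ∃ c : ℕ, 0 ≤ C ∧ ∀ A B N z : ℝ, Adm A B N z →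
    |aeval (cl A B z) p - aeval ![A, B] (ev0 p) - z * aeval ![A, B] (ev0 (DL p))| ≤
      C * N ^ c * z ^ 2

lemma Ex.add {p q : P5} (hp : Ex p) (hq : Ex q) : Ex (p + q) := by
  obtain ⟨C1, c1, h1, H1⟩ := hp
  obtain ⟨C2, c2, h2, H2⟩ := hq
  refine ⟨C1 + C2, max c1 c2, by positivity, ?_⟩
  intro A B N z H
  have hN := H.hN
  have e1 : N ^ c1 ≤ N ^ max c1 c2 := pow_le_pow_right₀ hN (le_max_left _ _)
  have e2 : N ^ c2 ≤ N ^ max c1 c2 := pow_le_pow_right₀ hN (le_max_right _ _)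
  have k1 := H1 A B N z H
  have k2 := H2 A B N z H
  simp only [map_add]
  have e : aeval (cl A B z) p + aeval (cl A B z) q - (aeval ![A, B] (ev0 p)
      + aeval ![A, B] (ev0 q)) - z * (aeval ![A, B] (ev0 (DL p)) + aeval ![A, B] (ev0 (DL q))) =
      (aeval (cl A B z) p - aeval ![A, B] (ev0 p) - z * aeval ![A, B] (ev0 (DL p))) +
      (aeval (cl A B z) q - aeval ![A, B] (ev0 q) - z * aeval ![A, B] (ev0 (DL q))) := by ring
  rw [e]
  refine (abs_add_le _ _).trans ((add_le_add k1 k2).trans ?_)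
  rw [← add_mul]
  apply mul_le_mul_of_nonneg_right _ (by positivity)
  rw [add_mul]
  exact add_le_add (mul_le_mul_of_nonneg_left e1 h1) (mul_le_mul_of_nonneg_left e2 h2)

lemma Ex.mul {p q : P5} (hp : Ex p) (hq : Ex q) : Ex (p * q) := by
  obtain ⟨C1, c1, h1, H1⟩ := hp
  obtain ⟨C2, c2, h2, H2⟩ := hq
  obtain ⟨P0, p0, hP0, HP0⟩ := poly_bound (ev0 p)
  obtain ⟨P1, p1, hP1, HP1⟩ := poly_bound (ev0 (DL p))
  obtain ⟨Q0, q0, hQ0, HQ0⟩ := poly_bound (ev0 q)
  obtain ⟨Q1, q1, hQ1, HQ1⟩ := poly_bound (ev0 (DL q))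
  refine ⟨C1 * (Q0 + Q1 + C2) + (P0 + P1) * C2 + P1 * Q1,
    c1 + c2 + p0 + p1 + q0 + q1, by positivity, ?_⟩
  intro A B N z H
  have hN := H.hN
  have hz := H.hz
  have hz1 := H.z_le
  have hz2 : z ^ 2 ≤ 1 := pow_le_one₀ hz.le hz1
  have k1 := H1 A B N z H
  have k2 := H2 A B N z H
  have l0 := HP0 A B N hN H.hA H.hB
  have l1 := HP1 A B N hN H.hA H.hB
  have m0 := HQ0 A B N hN H.hA H.hB
  have m1 := HQ1 A B N hN H.hA H.hB
  set E := c1 + c2 + p0 + p1 + q0 + q1 with hE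
  have hpow : ∀ a b : ℕ, a + b ≤ E → N ^ a * N ^ b ≤ N ^ E := by
    intro a b hab
    rw [← pow_add]
    exact pow_le_pow_right₀ hN hab
  have hpow1 : ∀ a : ℕ, 1 ≤ N ^ a := fun a => one_le_pow₀ hN
  simp only [map_mul, map_add, Derivation.leibniz, smul_eq_mul]
  generalize aeval (cl A B z) p = x at *
  generalize aeval (cl A B z) q = y at *
  generalize aeval ![A, B] (ev0 p) = x0 at *
  generalize aeval ![A, B] (ev0 q) = y0 at *
  generalize aeval ![A, B] (ev0 (DL p)) = x1 at *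
  generalize aeval ![A, B] (ev0 (DL q)) = y1 at *
  have e : x * y - x0 * y0 - z * (x0 * y1 + y0 * x1) =
      (x - x0 - z * x1) * y + (x0 + z * x1) * (y - y0 - z * y1) + z ^ 2 * (x1 * y1) := by ring
  rw [e]
  have hy : |y| ≤ Q0 * N ^ q0 + Q1 * N ^ q1 + C2 * N ^ c2 := by
    have : y = y0 + z * y1 + (y - y0 - z * y1) := by ring
    rw [this]
    refine (abs_add_le _ _).trans (add_le_add ((abs_add_le _ _).trans (add_le_add m0 ?_)) ?_)
    · rw [abs_mul, abs_of_pos hz]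
      calc z * |y1| ≤ 1 * |y1| := mul_le_mul_of_nonneg_right hz1 (abs_nonneg _)
        _ ≤ Q1 * N ^ q1 := by rw [one_mul]; exact m1
    · refine k2.trans ?_
      calc C2 * N ^ c2 * z ^ 2 ≤ C2 * N ^ c2 * 1 :=
            mul_le_mul_of_nonneg_left hz2 (by positivity)
        _ = C2 * N ^ c2 := mul_one _
  have hx : |x0 + z * x1| ≤ P0 * N ^ p0 + P1 * N ^ p1 := by
    refine (abs_add_le _ _).trans (add_le_add l0 ?_)
    rw [abs_mul, abs_of_pos hz]
    calc z * |x1| ≤ 1 * |x1| := mul_le_mul_of_nonneg_right hz1 (abs_nonneg _)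
      _ ≤ P1 * N ^ p1 := by rw [one_mul]; exact l1
  have t1 : |(x - x0 - z * x1) * y| ≤ C1 * (Q0 + Q1 + C2) * N ^ E * z ^ 2 := by
    rw [abs_mul]
    calc |x - x0 - z * x1| * |y| ≤ (C1 * N ^ c1 * z ^ 2) * (Q0 * N ^ q0 + Q1 * N ^ q1 + C2 * N ^ c2) :=
          mul_le_mul k1 hy (abs_nonneg _) (by positivity)
      _ = (C1 * Q0 * (N ^ c1 * N ^ q0) + C1 * Q1 * (N ^ c1 * N ^ q1)
            + C1 * C2 * (N ^ c1 * N ^ c2)) * z ^ 2 := by ring
      _ ≤ (C1 * Q0 * N ^ E + C1 * Q1 * N ^ E + C1 * C2 * N ^ E) * z ^ 2 := by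
          apply mul_le_mul_of_nonneg_right _ (by positivity)
          refine add_le_add (add_le_add ?_ ?_) ?_
          · exact mul_le_mul_of_nonneg_left (hpow _ _ (by omega)) (by positivity)
          · exact mul_le_mul_of_nonneg_left (hpow _ _ (by omega)) (by positivity)
          · exact mul_le_mul_of_nonneg_left (hpow _ _ (by omega)) (by positivity)
      _ = C1 * (Q0 + Q1 + C2) * N ^ E * z ^ 2 := by ring
  have t2 : |(x0 + z * x1) * (y - y0 - z * y1)| ≤ (P0 + P1) * C2 * N ^ E * z ^ 2 := by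
    rw [abs_mul]
    calc |x0 + z * x1| * |y - y0 - z * y1| ≤ (P0 * N ^ p0 + P1 * N ^ p1) * (C2 * N ^ c2 * z ^ 2) :=
          mul_le_mul hx k2 (abs_nonneg _) (by positivity)
      _ = (P0 * C2 * (N ^ p0 * N ^ c2) + P1 * C2 * (N ^ p1 * N ^ c2)) * z ^ 2 := by ring
      _ ≤ (P0 * C2 * N ^ E + P1 * C2 * N ^ E) * z ^ 2 := by
          apply mul_le_mul_of_nonneg_right _ (by positivity)
          refine add_le_add ?_ ?_
          · exact mul_le_mul_of_nonneg_left (hpow _ _ (by omega)) (by positivity)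
          · exact mul_le_mul_of_nonneg_left (hpow _ _ (by omega)) (by positivity)
      _ = (P0 + P1) * C2 * N ^ E * z ^ 2 := by ring
  have t3 : |z ^ 2 * (x1 * y1)| ≤ P1 * Q1 * N ^ E * z ^ 2 := by
    rw [abs_mul, abs_mul, abs_of_nonneg (by positivity : (0:ℝ) ≤ z ^ 2)]
    calc z ^ 2 * (|x1| * |y1|) ≤ z ^ 2 * ((P1 * N ^ p1) * (Q1 * N ^ q1)) := by
          apply mul_le_mul_of_nonneg_left _ (by positivity)
          exact mul_le_mul l1 m1 (abs_nonneg _) (by positivity)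
      _ = P1 * Q1 * (N ^ p1 * N ^ q1) * z ^ 2 := by ring
      _ ≤ P1 * Q1 * N ^ E * z ^ 2 := by
          apply mul_le_mul_of_nonneg_right _ (by positivity)
          exact mul_le_mul_of_nonneg_left (hpow _ _ (by omega)) (by positivity)
  refine (abs_add_le _ _).trans ((add_le_add ((abs_add_le _ _).trans (add_le_add t1 t2)) t3).trans
    (le_of_eq ?_))
  ring

lemma ex_X (i : Fin 5) : Ex (X i) := by
  fin_cases i
  · refine ⟨0, 0, le_refl _, ?_⟩
    intro A B N z H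
    simp [DL_X0, ev0, cl]
  · refine ⟨2, 1, by norm_num, ?_⟩
    intro A B N z H
    have hz := H.hz
    have hz1 := H.z_le
    have hw := H.w_pos
    have hYY : Real.sqrt (1 + A * z ^ 4 + B * z ^ 6) ^ 2 = 1 + A * z ^ 4 + B * z ^ 6 :=
      Real.sq_sqrt hw.le
    have hY := Real.sqrt_nonneg (1 + A * z ^ 4 + B * z ^ 6)
    simp only [Fin.mk_one, Fin.isValue, DL_X1, ev0, cl]
    simp
    generalize Real.sqrt (1 + A * z ^ 4 + B * z ^ 6) = Y at *
    have h4 : z ^ 4 ≤ z ^ 2 := pow_le_pow_of_le_one hz.le hz1 (by norm_num)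
    have h6 : z ^ 6 ≤ z ^ 2 := pow_le_pow_of_le_one hz.le hz1 (by norm_num)
    have h4' : 0 < z ^ 4 := by positivity
    have h6' : 0 < z ^ 6 := by positivity
    have hN := H.hN
    have hb : |A * z ^ 4 + B * z ^ 6| ≤ 2 * N * z ^ 2 := by
      refine (abs_add_le _ _).trans ?_
      rw [abs_mul, abs_mul, abs_of_pos h4', abs_of_pos h6']
      have a1 : |A| * z ^ 4 ≤ N * z ^ 2 := mul_le_mul H.hA h4 h4'.le (by linarith)
      have a2 : |B| * z ^ 6 ≤ N * z ^ 2 := mul_le_mul H.hB h6 h6'.le (by linarith)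
      linarith
    have e1 : (Y - 1) * (Y + 1) = A * z ^ 4 + B * z ^ 6 := by linear_combination hYY
    have e2 : |Y - 1| ≤ |(Y - 1) * (Y + 1)| := by
      rw [abs_mul]
      apply le_mul_of_one_le_right (abs_nonneg _)
      rw [abs_of_nonneg (by linarith)]; linarith
    rw [e1] at e2
    linarith
  · refine ⟨1, 1, by norm_num, ?_⟩
    intro A B N z H
    have hz := H.hz
    have hz1 := H.z_le
    have hw := H.w_pos
    have hYY : Real.sqrt (1 + A * z ^ 4 + B * z ^ 6) ^ 2 = 1 + A * z ^ 4 + B * z ^ 6 :=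
      Real.sq_sqrt hw.le
    have hY := Real.sqrt_nonneg (1 + A * z ^ 4 + B * z ^ 6)
    simp only [Fin.reduceFinMk, Fin.isValue, DL_X2, ev0, cl]
    simp
    generalize Real.sqrt (1 + A * z ^ 4 + B * z ^ 6) = Y at *
    have h4 : z ^ 4 ≤ z ^ 2 := pow_le_pow_of_le_one hz.le hz1 (by norm_num)
    have h6 : z ^ 6 ≤ z ^ 2 := pow_le_pow_of_le_one hz.le hz1 (by norm_num)
    have h4' : 0 < z ^ 4 := by positivity
    have h6' : 0 < z ^ 6 := by positivity
    have hN := H.hN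
    have hb : |A * z ^ 4 + B * z ^ 6| ≤ 2 * N * z ^ 2 := by
      refine (abs_add_le _ _).trans ?_
      rw [abs_mul, abs_mul, abs_of_pos h4', abs_of_pos h6']
      have a1 : |A| * z ^ 4 ≤ N * z ^ 2 := mul_le_mul H.hA h4 h4'.le (by linarith)
      have a2 : |B| * z ^ 6 ≤ N * z ^ 2 := mul_le_mul H.hB h6 h6'.le (by linarith)
      linarith
    have e1 : (Y - 1) * (Y + 1) = A * z ^ 4 + B * z ^ 6 := by linear_combination hYY
    have hY1 : 0 < 1 + Y := by linarith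
    have e3 : (1 + Y)⁻¹ - 2⁻¹ = -((Y - 1) * (Y + 1)) / (2 * (1 + Y) ^ 2) := by
      field_simp
      ring
    rw [e3, e1, abs_div, abs_neg, abs_of_pos (by positivity : 0 < 2 * (1 + Y) ^ 2),
      div_le_iff₀ (by positivity)]
    have e4 : 2 ≤ 2 * (1 + Y) ^ 2 := by nlinarith
    have e5 : 0 ≤ N * z ^ 2 := by positivity
    nlinarith
  · refine ⟨0, 0, le_refl _, ?_⟩
    intro A B N z H
    simp [DL_X3, ev0, cl]
  · refine ⟨0, 0, le_refl _, ?_⟩
    intro A B N z H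
    simp [DL_X4, ev0, cl]

theorem expansion (p : P5) : Ex p := by
  induction p using MvPolynomial.induction_on with
  | C a =>
    refine ⟨0, 0, le_refl _, ?_⟩
    intro A B N z H
    simp [MvPolynomial.derivation_C, ev0]
  | add p q hp hq => exact hp.add hq
  | mul_X p i hp => exact hp.mul (ex_X i)

/-- bounded denominators -/
theorem integrality {σ : Type} (p : MvPolynomial σ ℚ) : ∃ D : ℕ, 0 < D ∧
    ∀ v : σ → ℤ, ∃ k : ℤ, (D : ℝ) * aeval (fun i => (v i : ℝ)) p = k := by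
  induction p using MvPolynomial.induction_on with
  | C a =>
    refine ⟨a.den, a.den_pos, fun v => ⟨a.num, ?_⟩⟩
    simp only [algHom_C, eq_ratCast]
    have := Rat.mul_den_eq_num a
    have h2 : ((a * a.den : ℚ) : ℝ) = ((a.num : ℚ) : ℝ) := by rw [this]
    push_cast at h2
    linarith
  | add p q hp hq =>
    obtain ⟨D1, h1, H1⟩ := hp
    obtain ⟨D2, h2, H2⟩ := hq
    refine ⟨D1 * D2, Nat.mul_pos h1 h2, fun v => ?_⟩
    obtain ⟨k1, e1⟩ := H1 v
    obtain ⟨k2, e2⟩ := H2 v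
    refine ⟨D2 * k1 + D1 * k2, ?_⟩
    push_cast
    rw [map_add, ← e1, ← e2]
    ring
  | mul_X p i hp =>
    obtain ⟨D1, h1, H1⟩ := hp
    refine ⟨D1, h1, fun v => ?_⟩
    obtain ⟨k1, e1⟩ := H1 v
    refine ⟨k1 * v i, ?_⟩
    push_cast
    rw [map_mul, aeval_X, ← e1]
    ring

end Pool.Agent.LibHL18
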