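import Pool.Agent.LibHL18.Forms

/-!
The values of the forms `h n` at `t = sqrt x` are expressed by the forms `lam n`; Taylor formula.
-/

namespace Pool.Agent.LibHL18

open MvPolynomial

/-- the curve `(t, x, y, A, B) = (1/z, 1/z^2, Y/z^3, A, B)` -/
noncomputable def cu (A B : ℝ) (z : ℝ) : Fin 5 → ℝ :=
  ![z⁻¹, (z⁻¹) ^ 2, Real.sqrt (1 + A * z ^ 4 + B * z ^ 6) * (z⁻¹) ^ 3, A, B]

/-- the curve `(z, Y, V, A, B)` -/
noncomputable def cl (A B : ℝ) (z : ℝ) : Fin 5 → ℝ :=
  ![z, Real.sqrt (1 + A * z ^ 4 + B * z ^ 6),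
    (1 + Real.sqrt (1 + A * z ^ 4 + B * z ^ 6))⁻¹, A, B]

lemma hasDeriv_Y {A B z : ℝ} (hw : 0 < 1 + A * z ^ 4 + B * z ^ 6) :
    HasDerivAt (fun z => Real.sqrt (1 + A * z ^ 4 + B * z ^ 6))
      ((Real.sqrt (1 + A * z ^ 4 + B * z ^ 6))⁻¹ * (2 * A * z ^ 3 + 3 * B * z ^ 5)) z := by
  have h1 : HasDerivAt (fun z : ℝ => 1 + A * z ^ 4 + B * z ^ 6)
      (4 * A * z ^ 3 + 6 * B * z ^ 5) z := by
    have a := ((hasDerivAt_pow 4 z).const_mul A).const_add 1
    have b := (hasDerivAt_pow 6 z).const_mul B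
    refine (a.add b).congr_deriv ?_
    push_cast; ring
  have h2 := h1.sqrt hw.ne'
  refine h2.congr_deriv ?_
  have : Real.sqrt (1 + A * z ^ 4 + B * z ^ 6) ≠ 0 := (Real.sqrt_pos.mpr hw).ne'
  field_simp
  ring

lemma deriv_cl {A B z : ℝ} (hw : 0 < 1 + A * z ^ 4 + B * z ^ 6) (p : P5) :
    HasDerivAt (fun z => aeval (cl A B z) p)
      ((Real.sqrt (1 + A * z ^ 4 + B * z ^ 6))⁻¹ * aeval (cl A B z) (DL p)) z := by
  have hY : Real.sqrt (1 + A * z ^ 4 + B * z ^ 6) ≠ 0 := (Real.sqrt_pos.mpr hw).ne'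
  have hY1 : 1 + Real.sqrt (1 + A * z ^ 4 + B * z ^ 6) ≠ 0 := by positivity
  have key := hasDeriv_aeval (c := cl A B) (D1 := DL) (D2 := 0)
    (r1 := (Real.sqrt (1 + A * z ^ 4 + B * z ^ 6))⁻¹) (r2 := 0) (z0 := z) ?_ p
  · simpa using key
  intro i
  fin_cases i
  · simp only [Fin.zero_eta, Fin.isValue, DL_X0]
    refine (hasDerivAt_id z).congr_deriv ?_
    simp [cl, hY]
  · simp only [Fin.mk_one, Fin.isValue, DL_X1]
    refine (hasDeriv_Y hw).congr_deriv ?_
    simp [cl]
  · simp only [Fin.reduceFinMk, Fin.isValue, DL_X2]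
    have := ((hasDeriv_Y hw).const_add 1).inv hY1
    refine this.congr_deriv ?_
    simp [cl]
    field_simp
  · simp only [Fin.reduceFinMk, Fin.isValue, DL_X3]
    refine (hasDerivAt_const z A).congr_deriv ?_
    simp
  · simp only [Fin.reduceFinMk, Fin.isValue, DL_X4]
    refine (hasDerivAt_const z B).congr_deriv ?_
    simp

lemma deriv_cu {A B z : ℝ} (hz : 0 < z) (hw : 0 < 1 + A * z ^ 4 + B * z ^ 6) (p : P5) :
    HasDerivAt (fun z => aeval (cu A B z) p)
      ((Real.sqrt (1 + A * z ^ 4 + B * z ^ 6))⁻¹ * aeval (cu A B z) (DQ p)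
        + (-(z⁻¹) ^ 2) * aeval (cu A B z) (pderiv 0 p)) z := by
  have hY : Real.sqrt (1 + A * z ^ 4 + B * z ^ 6) ≠ 0 := (Real.sqrt_pos.mpr hw).ne'
  have hYY : Real.sqrt (1 + A * z ^ 4 + B * z ^ 6) ^ 2 = 1 + A * z ^ 4 + B * z ^ 6 :=
    Real.sq_sqrt hw.le
  have hi : HasDerivAt (fun z : ℝ => z⁻¹) (-(z⁻¹) ^ 2) z := by
    refine (hasDerivAt_inv hz.ne').congr_deriv ?_
    field_simp
  refine hasDeriv_aeval (c := cu A B) (D1 := DQ) (D2 := pderiv 0) ?_ p
  intro i
  fin_cases i
  · simp only [Fin.zero_eta, Fin.isValue, DQ_X0, pderiv_X_self]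
    refine hi.congr_deriv ?_
    simp
  · simp only [Fin.mk_one, Fin.isValue, DQ_X1]
    rw [pderiv_X_of_ne (by decide)]
    refine (hi.pow 2).congr_deriv ?_
    simp only [cu, Fin.isValue, map_neg, map_mul, aeval_X, map_ofNat, map_zero]
    generalize Real.sqrt (1 + A * z ^ 4 + B * z ^ 6) = Y at *
    simp
    field_simp
  · simp only [Fin.reduceFinMk, Fin.isValue, DQ_X2]
    rw [pderiv_X_of_ne (by decide)]
    refine ((hasDeriv_Y hw).mul (hi.pow 3)).congr_deriv ?_
    simp only [cu, Fin.isValue, map_neg, map_mul, aeval_X, map_ofNat, map_zero, map_add, map_pow]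
    generalize Real.sqrt (1 + A * z ^ 4 + B * z ^ 6) = Y at *
    simp
    field_simp
    rw [hYY]
    ring
  · simp only [Fin.reduceFinMk, Fin.isValue, DQ_X3]
    rw [pderiv_X_of_ne (by decide)]
    refine (hasDerivAt_const z A).congr_deriv ?_
    simp
  · simp only [Fin.reduceFinMk, Fin.isValue, DQ_X4]
    rw [pderiv_X_of_ne (by decide)]
    refine (hasDerivAt_const z B).congr_deriv ?_
    simp

/-- the forms at `t = sqrt x` -/
theorem h_cu (A B : ℝ) (n : ℕ) : ∀ z : ℝ, 0 < z → 0 < 1 + A * z ^ 4 + B * z ^ 6 →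
    z * aeval (cu A B z) (h n) = aeval (cl A B z) (lam n) := by
  induction n using Nat.strong_induction_on with
  | _ n ih =>
    match n, ih with
    | 0, _ => intro z hz hw; simp [h, lam, cl]
    | 1, _ => intro z hz hw; simp [h, lam, cu, hz.ne']
    | (n + 2), ih =>
      intro z hz hw
      have h0 := ih n (by omega) z hz hw
      have h1 := ih (n + 1) (by omega) z hz hw
      -- the derivatives agree
      have hU : ∀ᶠ w in nhds z, 0 < w ∧ 0 < 1 + A * w ^ 4 + B * w ^ 6 := by
        refine (eventually_gt_nhds hz).and ?_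
        have hc : ContinuousAt (fun w : ℝ => 1 + A * w ^ 4 + B * w ^ 6) z := by fun_prop
        exact hc.eventually (eventually_gt_nhds hw)
      have heq : (fun w => w * aeval (cu A B w) (h (n + 1))) =ᶠ[nhds z]
          (fun w => aeval (cl A B w) (lam (n + 1))) := by
        filter_upwards [hU] with w hw'
        exact ih (n + 1) (by omega) w hw'.1 hw'.2
      have d1 := (hasDerivAt_id z).mul (deriv_cu hz hw (h (n + 1)))
      have d2 := deriv_cl hw (lam (n + 1))
      have hd := (d1.congr_of_eventuallyEq (heq.symm)).unique d2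
      simp only [id, one_mul, pderiv_h] at hd
      have hY : 0 < Real.sqrt (1 + A * z ^ 4 + B * z ^ 6) := Real.sqrt_pos.mpr hw
      have hYY : Real.sqrt (1 + A * z ^ 4 + B * z ^ 6) ^ 2 = 1 + A * z ^ 4 + B * z ^ 6 :=
        Real.sq_sqrt hw.le
      have eh : aeval (cu A B z) (h (n + 2)) = (1 / ((n : ℝ) + 2)) *
          (aeval (cu A B z) (DQ (h (n + 1))) + z⁻¹ * aeval (cu A B z) (h (n + 1))
            - (z⁻¹) ^ 2 * aeval (cu A B z) (h n)) := by
        rw [h]
        simp [cu]
      have el : aeval (cl A B z) (lam (n + 2)) = (1 / ((n : ℝ) + 2)) *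
          (aeval (cl A B z) (DL (lam (n + 1)))
            + z * (-((A * z ^ 2 + B * z ^ 4) * (1 + Real.sqrt (1 + A * z ^ 4 + B * z ^ 6))⁻¹))
              * aeval (cl A B z) (lam (n + 1))
            - (-((A * z ^ 2 + B * z ^ 4) * (1 + Real.sqrt (1 + A * z ^ 4 + B * z ^ 6))⁻¹))
              * aeval (cl A B z) (lam n)) := by
        rw [lam]
        simp [cl, qq]
      rw [eh, el, ← h1, ← h0]
      generalize aeval (cu A B z) (h (n + 1)) = H1 at *
      generalize aeval (cu A B z) (h n) = H0 at *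
      generalize aeval (cu A B z) (DQ (h (n + 1))) = K1 at *
      generalize aeval (cl A B z) (DL (lam (n + 1))) = L1 at *
      have hq : (A * z ^ 2 + B * z ^ 4) * (1 + Real.sqrt (1 + A * z ^ 4 + B * z ^ 6))⁻¹ =
          (Real.sqrt (1 + A * z ^ 4 + B * z ^ 6) - 1) * (z⁻¹) ^ 2 := by
        generalize Real.sqrt (1 + A * z ^ 4 + B * z ^ 6) = Y at *
        field_simp
        linear_combination (-1) * hYY
      rw [hq]
      generalize Real.sqrt (1 + A * z ^ 4 + B * z ^ 6) = Y at *
      have hL : L1 = Y * H1 + z * K1 - Y * z⁻¹ * H0 := by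
        have e1 : Y * (H1 + z * (Y⁻¹ * K1 + -(z⁻¹) ^ 2 * H0)) = Y * (Y⁻¹ * L1) := by rw [hd]
        have e2 : Y * (Y⁻¹ * L1) = L1 := by field_simp
        rw [← e2, ← e1]
        field_simp
        ring
      rw [hL]
      field_simp
      ring

/-- Taylor formula in `t` -/
theorem taylor (x y A B : ℝ) (n : ℕ) : ∀ s r : ℝ, aeval ![s + r, x, y, A, B] (h n) =
    ∑ ij ∈ Finset.HasAntidiagonal.antidiagonal n, r ^ ij.1 / (ij.1.factorial : ℝ) *
      aeval ![s, x, y, A, B] (h ij.2) := by
  have hD : ∀ (s r : ℝ) (p : P5), HasDerivAt (fun r => aeval ![s + r, x, y, A, B] p)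
      (aeval ![s + r, x, y, A, B] (pderiv 0 p)) r := by
    intro s r p
    have key := hasDeriv_aeval (c := fun r => ![s + r, x, y, A, B]) (D1 := pderiv 0) (D2 := 0)
      (r1 := 1) (r2 := 0) (z0 := r) ?_ p
    · simpa using key
    intro i
    fin_cases i
    · simpa using (hasDerivAt_id r).const_add s
    · simpa [pderiv_X_of_ne] using hasDerivAt_const r x
    · simpa [pderiv_X_of_ne] using hasDerivAt_const r y
    · simpa [pderiv_X_of_ne] using hasDerivAt_const r A
    · simpa [pderiv_X_of_ne] using hasDerivAt_const r B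
  induction n with
  | zero => intro s r; simp [h]
  | succ n ih =>
    intro s r
    set f : ℝ → ℝ := fun r => aeval ![s + r, x, y, A, B] (h (n + 1)) -
      ∑ ij ∈ Finset.HasAntidiagonal.antidiagonal (n + 1), r ^ ij.1 / (ij.1.factorial : ℝ) *
      aeval ![s, x, y, A, B] (h ij.2) with hf
    have hdf : ∀ r, HasDerivAt f 0 r := by
      intro r
      have e1 := hD s r (h (n + 1))
      rw [pderiv_h, ih s r] at e1
      have e2 : HasDerivAt (fun r : ℝ => ∑ ij ∈ Finset.HasAntidiagonal.antidiagonal (n + 1),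
          r ^ ij.1 / (ij.1.factorial : ℝ) * aeval ![s, x, y, A, B] (h ij.2))
          (∑ ij ∈ Finset.HasAntidiagonal.antidiagonal n, r ^ ij.1 / (ij.1.factorial : ℝ) *
            aeval ![s, x, y, A, B] (h ij.2)) r := by
        rw [Finset.Nat.antidiagonal_succ]
        simp only [Finset.sum_cons, Finset.sum_map, pow_zero, Function.Embedding.prodMap,
          Function.Embedding.coeFn_mk, Prod.map, Nat.factorial_zero]
        have e3 : HasDerivAt (fun r : ℝ => ∑ ij ∈ Finset.HasAntidiagonal.antidiagonal n,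
            r ^ (ij.1 + 1) / ((ij.1 + 1).factorial : ℝ) * aeval ![s, x, y, A, B] (h ij.2))
          (∑ ij ∈ Finset.HasAntidiagonal.antidiagonal n, r ^ ij.1 / (ij.1.factorial : ℝ) *
            aeval ![s, x, y, A, B] (h ij.2)) r := by
          apply HasDerivAt.fun_sum
          intro ij _
          have := ((hasDerivAt_pow (ij.1 + 1) r).div_const ((ij.1 + 1).factorial : ℝ)).mul_const
            (aeval ![s, x, y, A, B] (h ij.2))
          refine this.congr_deriv ?_
          rw [Nat.factorial_succ]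
          have hne : (ij.1.factorial : ℝ) ≠ 0 := by positivity
          push_cast
          field_simp
          try ring
        exact (e3.const_add _).congr_deriv rfl
      exact (e1.sub e2).congr_deriv (sub_self _)
    have hconst : f r = f 0 := by
      have hdiff : Differentiable ℝ f := fun r => (hdf r).differentiableAt
      exact is_const_of_deriv_eq_zero hdiff (fun r => (hdf r).deriv) r 0
    have h0 : f 0 = 0 := by
      simp only [hf, add_zero]
      rw [Finset.Nat.antidiagonal_succ]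
      simp
    have : f r = 0 := hconst.trans h0
    simp only [hf] at this
    linarith

end Pool.Agent.LibHL18
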