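import Pool.Agent.LibHL18.Main

/-!
The Hall-Lang inequality for all points with `sqrt x` close to a rational number.
-/

namespace Pool.Agent.LibHL18

lemma one_le_max' {A B : ℤ} (hns : 4 * A ^ 3 + 27 * B ^ 2 ≠ 0) : 1 ≤ max |A| |B| := by
  by_contra hcon
  push Not at hcon
  have h1 : |A| < 1 := lt_of_le_of_lt (le_max_left _ _) hcon
  have h2 : |B| < 1 := lt_of_le_of_lt (le_max_right _ _) hcon
  have h3 : A = 0 := Int.abs_lt_one_iff.mp h1
  have h4 : B = 0 := Int.abs_lt_one_iff.mp h2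
  apply hns
  rw [h3, h4]; norm_num

/-- `sqrt x` close to an integer -/
theorem near_int (ε : ℝ) (hε : 0 < ε) (hε1 : ε ≤ 1)
    (old : ∀ A B x y t : ℤ, 4 * A ^ 3 + 27 * B ^ 2 ≠ 0 → y ^ 2 = x ^ 3 + A * x + B →
      2 * |x - t ^ 2| ^ 3 ≤ t ^ 2 → max |x| |y| ≤ 1500 * (max |A| |B|) ^ 3) :
    ∃ K : ℝ, 1 ≤ K ∧
    ∀ A B x y t : ℤ, 4 * A ^ 3 + 27 * B ^ 2 ≠ 0 → y ^ 2 = x ^ 3 + A * x + B →
      |((x - t ^ 2 : ℤ) : ℝ)| ≤ |(t : ℝ)| ^ (1 - ε) →
      ((max |x| |y| : ℤ) : ℝ) ≤ K * ((max |A| |B| : ℤ) : ℝ) ^ (7 / ε ^ 2) := by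
  obtain ⟨K, hK, H⟩ := t_bound ε hε hε1
  have hε2 : ε ^ 2 ≤ 1 := pow_le_one₀ hε.le hε1
  have hε2' : 0 < ε ^ 2 := by positivity
  have hM3 : 3 ≤ 7 / ε ^ 2 := by
    rw [le_div_iff₀ hε2']; linarith
  have hM4 : 3 * (7 / (4 * ε ^ 2)) + 1 ≤ 7 / ε ^ 2 := by
    have e1 : 3 * (7 / (4 * ε ^ 2)) + 1 = (21 / 4 + ε ^ 2) / ε ^ 2 := by field_simp; ring
    rw [e1]
    apply div_le_div_of_nonneg_right _ hε2'.le
    linarith
  refine ⟨4 * K ^ 3 + 1500, ?_, ?_⟩
  · have : 0 < K ^ 3 := by positivity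
    linarith
  intro A B x y t hns hc hm
  have hN1 := one_le_max' hns
  set Nz : ℤ := max |A| |B| with hNz
  set N : ℝ := (Nz : ℝ) with hNd
  have hN : (1 : ℝ) ≤ N := by rw [hNd]; exact_mod_cast hN1
  have hK3 : 0 < K ^ 3 := by positivity
  have hNM3 : N ^ (3 : ℕ) ≤ N ^ (7 / ε ^ 2) := by
    rw [← Real.rpow_natCast]
    apply Real.rpow_le_rpow_of_exponent_le hN
    push_cast; exact hM3
  have hNpos : 0 < N ^ (7 / ε ^ 2) := Real.rpow_pos_of_pos (by linarith) _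
  by_cases hsm : 2 * |x - t ^ 2| ^ 3 ≤ t ^ 2
  · have h1 := old A B x y t hns hc hsm
    have h2 : ((max |x| |y| : ℤ) : ℝ) ≤ 1500 * N ^ 3 := by rw [hNd]; exact_mod_cast h1
    have h3 : 1500 * N ^ 3 ≤ (4 * K ^ 3 + 1500) * N ^ (7 / ε ^ 2) := by
      apply mul_le_mul (by linarith) hNM3 (by positivity) (by positivity)
    linarith
  · push Not at hsm
    have hAN : |(A : ℝ)| ≤ N := by rw [hNd, hNz]; exact_mod_cast le_max_left |A| |B|
    have hBN : |(B : ℝ)| ≤ N := by rw [hNd, hNz]; exact_mod_cast le_max_right |A| |B|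
    have hcr : (y : ℝ) ^ 2 = x ^ 3 + A * x + B := by exact_mod_cast hc
    have hyle : (y : ℝ) ^ 2 ≤ |(x : ℝ)| ^ 3 + N * |(x : ℝ)| + N := by
      rw [hcr]
      have e1 : (x : ℝ) ^ 3 ≤ |(x : ℝ)| ^ 3 := by rw [← abs_pow]; exact le_abs_self _
      have e2 : (A : ℝ) * x ≤ N * |(x : ℝ)| := by
        calc (A : ℝ) * x ≤ |(A : ℝ) * x| := le_abs_self _
          _ = |(A : ℝ)| * |(x : ℝ)| := abs_mul _ _
          _ ≤ N * |(x : ℝ)| := mul_le_mul_of_nonneg_right hAN (abs_nonneg _)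
      have e3 : (B : ℝ) ≤ N := (le_abs_self _).trans hBN
      linarith
    have hcast : ((max |x| |y| : ℤ) : ℝ) = max |(x : ℝ)| |(y : ℝ)| := by push_cast; rfl
    rw [hcast]
    have hNle : N ≤ N ^ (7 / ε ^ 2) := by
      conv_lhs => rw [← Real.rpow_one N]
      apply Real.rpow_le_rpow_of_exponent_le hN; linarith
    rcases eq_or_ne t 0 with ht0 | ht0
    · -- then `|x| ≤ 1`
      have h1 : |(x : ℝ)| ≤ 1 := by
        rw [ht0] at hm
        have : |((x - 0 ^ 2 : ℤ) : ℝ)| ≤ 1 := by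
          refine hm.trans ?_
          simp only [Int.cast_zero, abs_zero]
          by_cases h0 : 1 - ε = 0
          · rw [h0, Real.rpow_zero]
          · rw [Real.zero_rpow h0]; norm_num
        simpa using this
      have h3 : |(x : ℝ)| ^ 3 ≤ 1 := pow_le_one₀ (abs_nonneg _) h1
      have h4 : N * |(x : ℝ)| ≤ N := mul_le_of_le_one_right (by linarith) h1
      have h5 : (y : ℝ) ^ 2 ≤ 3 * N := by linarith
      have h6 : |(y : ℝ)| ≤ 3 * N := by
        have h7 : |(y : ℝ)| ^ 2 ≤ (3 * N) ^ 2 := by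
          rw [sq_abs]; nlinarith
        exact (pow_le_pow_iff_left₀ (abs_nonneg _) (by linarith) (by norm_num)).mp h7
      have h8 : 3 * N ≤ (4 * K ^ 3 + 1500) * N ^ (7 / ε ^ 2) := by
        apply mul_le_mul (by linarith) hNle (by linarith) (by positivity)
      refine max_le ?_ ?_ <;> linarith
    · have ht1 : 1 ≤ |t| := Int.one_le_abs ht0
      have habs2 : |t| ^ 2 = t ^ 2 := sq_abs t
      have htr : (1 : ℝ) ≤ |(t : ℝ)| := by exact_mod_cast ht1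
      have hb := H A B x |y| |t| hN1 (abs_nonneg y) ht1 (by rw [sq_abs]; exact hc)
        (by rw [habs2]; push_cast; push_cast at hm; exact hm)
        (by rw [habs2]; exact hsm)
      rw [← hNz, ← hNd] at hb
      push_cast at hb
      have hm1 : |(x : ℝ) - t ^ 2| ≤ |(t : ℝ)| := by
        have h1 : |(t : ℝ)| ^ (1 - ε) ≤ |(t : ℝ)| := by
          conv_rhs => rw [← Real.rpow_one |(t : ℝ)|]
          apply Real.rpow_le_rpow_of_exponent_le htr; linarith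
        push_cast at hm
        exact hm.trans h1
      set T : ℝ := |(t : ℝ)| with hT
      have hT2 : T ^ 2 = (t : ℝ) ^ 2 := sq_abs _
      have hTT : T ≤ T ^ 2 := by nlinarith
      have hx2 : |(x : ℝ)| ≤ 2 * T ^ 2 := by
        have e1 : (x : ℝ) = t ^ 2 + (x - t ^ 2) := by ring
        rw [e1]
        refine (abs_add_le _ _).trans ?_
        have hm1' : |(x : ℝ) - T ^ 2| ≤ T := by rw [hT2]; exact hm1
        rw [abs_of_nonneg (by positivity : (0:ℝ) ≤ (t : ℝ) ^ 2), ← hT2]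
        linarith
      have hT3 : T ^ 2 ≤ T ^ 3 := pow_le_pow_right₀ htr (by norm_num)
      have hT6 : T ^ 2 ≤ T ^ 6 := pow_le_pow_right₀ htr (by norm_num)
      have hT61 : 1 ≤ T ^ 6 := one_le_pow₀ htr
      have hy2 : |(y : ℝ)| ≤ 4 * N * T ^ 3 := by
        have h1 : |(x : ℝ)| ^ 3 ≤ (2 * T ^ 2) ^ 3 := pow_le_pow_left₀ (abs_nonneg _) hx2 3
        have h2 : N * |(x : ℝ)| ≤ N * (2 * T ^ 2) := mul_le_mul_of_nonneg_left hx2 (by linarith)
        have h3 : (2 * T ^ 2) ^ 3 = 8 * T ^ 6 := by ring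
        have h4 : N * (2 * T ^ 2) ≤ 2 * (N * T ^ 6) := by
          have := mul_le_mul_of_nonneg_left hT6 (by linarith : 0 ≤ N)
          linarith
        have h5 : N ≤ N * T ^ 6 := le_mul_of_one_le_right (by linarith) hT61
        have h6 : 8 * T ^ 6 ≤ 8 * (N * T ^ 6) := by
          have := le_mul_of_one_le_left (by positivity : 0 ≤ T ^ 6) hN
          linarith
        have h7 : N * T ^ 6 ≤ N * (N * T ^ 6) := le_mul_of_one_le_left (by positivity) hN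
        have h8 : |(y : ℝ)| ^ 2 ≤ (4 * N * T ^ 3) ^ 2 := by
          rw [sq_abs]
          have e : (4 * N * T ^ 3) ^ 2 = 16 * (N * (N * T ^ 6)) := by ring
          rw [e]
          linarith
        exact (pow_le_pow_iff_left₀ (abs_nonneg _) (by positivity) (by norm_num)).mp h8
      have hx3 : |(x : ℝ)| ≤ 4 * N * T ^ 3 := by
        have : T ^ 3 ≤ N * T ^ 3 := le_mul_of_one_le_left (by positivity) hN
        linarith
      set M : ℝ := 7 / (4 * ε ^ 2) with hM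
      have hT3b : T ^ 3 ≤ K ^ 3 * N ^ (3 * M) := by
        calc T ^ 3 ≤ (K * N ^ M) ^ 3 := pow_le_pow_left₀ (by positivity) hb 3
          _ = K ^ 3 * N ^ (3 * M) := by
            rw [mul_pow, ← Real.rpow_natCast (N ^ M), ← Real.rpow_mul (by linarith)]
            congr 2
            push_cast; ring
      have hfin : 4 * N * T ^ 3 ≤ (4 * K ^ 3 + 1500) * N ^ (7 / ε ^ 2) := by
        have e1 : N * N ^ (3 * M) ≤ N ^ (7 / ε ^ 2) := by
          have : N * N ^ (3 * M) = N ^ (3 * M + 1) := by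
            rw [Real.rpow_add (by linarith), Real.rpow_one, mul_comm]
          rw [this]
          exact Real.rpow_le_rpow_of_exponent_le hN hM4
        calc 4 * N * T ^ 3 ≤ 4 * N * (K ^ 3 * N ^ (3 * M)) :=
              mul_le_mul_of_nonneg_left hT3b (by linarith)
          _ = 4 * K ^ 3 * (N * N ^ (3 * M)) := by ring
          _ ≤ 4 * K ^ 3 * N ^ (7 / ε ^ 2) := mul_le_mul_of_nonneg_left e1 (by positivity)
          _ ≤ (4 * K ^ 3 + 1500) * N ^ (7 / ε ^ 2) :=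
              mul_le_mul_of_nonneg_right (by linarith) hNpos.le
      exact max_le (hx3.trans hfin) (hy2.trans hfin)

/-- the old result, as a hypothesis -/
def Old : Prop := ∀ A B x y t : ℤ, 4 * A ^ 3 + 27 * B ^ 2 ≠ 0 → y ^ 2 = x ^ 3 + A * x + B →
      2 * |x - t ^ 2| ^ 3 ≤ t ^ 2 → max |x| |y| ≤ 1500 * (max |A| |B|) ^ 3

/-- `sqrt x` close to a rational number with denominator `q` -/
theorem near_rat (ε : ℝ) (hε : 0 < ε) (hε1 : ε ≤ 1) (old : Old) : ∃ K : ℝ, 1 ≤ K ∧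
    ∀ A B x y p q : ℤ, 4 * A ^ 3 + 27 * B ^ 2 ≠ 0 → y ^ 2 = x ^ 3 + A * x + B → 1 ≤ q →
      |((p ^ 2 - x * q ^ 2 : ℤ) : ℝ)| ≤ |(p : ℝ)| ^ (1 - ε) →
      ((q ^ 2 * max |x| |y| : ℤ) : ℝ) ≤ K * ((q ^ 6 * max |A| |B| : ℤ) : ℝ) ^ (7 / ε ^ 2) := by
  obtain ⟨K, hK, H⟩ := near_int ε hε hε1 old
  refine ⟨K, hK, ?_⟩
  intro A B x y p q hns hc hq hm
  have hq0 : q ≠ 0 := by omega
  have hqp : 0 < q := by omega
  have h1 := H (q ^ 4 * A) (q ^ 6 * B) (q ^ 2 * x) (q ^ 3 * y) p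
    (by
      intro h
      apply hns
      have : q ^ 12 * (4 * A ^ 3 + 27 * B ^ 2) = 0 := by linear_combination h
      rcases mul_eq_zero.mp this with h | h
      · exact absurd h (pow_ne_zero _ hq0)
      · exact h)
    (by linear_combination q ^ 6 * hc)
    (by
      have : ((q ^ 2 * x - p ^ 2 : ℤ) : ℝ) = -((p ^ 2 - x * q ^ 2 : ℤ) : ℝ) := by
        push_cast; ring
      rw [this, abs_neg]; exact hm)
  have hN0 : 0 ≤ max |A| |B| := (abs_nonneg A).trans (le_max_left _ _)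
  have hq46 : q ^ 4 ≤ q ^ 6 := pow_le_pow_right₀ hq (by norm_num)
  have h2 : max |q ^ 4 * A| |q ^ 6 * B| ≤ q ^ 6 * max |A| |B| := by
    rw [abs_mul, abs_mul, abs_of_pos (by positivity : 0 < q ^ 4),
      abs_of_pos (by positivity : 0 < q ^ 6)]
    refine max_le ?_ ?_
    · exact mul_le_mul hq46 (le_max_left _ _) (abs_nonneg _) (by positivity)
    · exact mul_le_mul_of_nonneg_left (le_max_right _ _) (by positivity)
  have h3 : q ^ 2 * max |x| |y| ≤ max |q ^ 2 * x| |q ^ 3 * y| := by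
    rw [abs_mul, abs_mul, abs_of_pos (by positivity : 0 < q ^ 2),
      abs_of_pos (by positivity : 0 < q ^ 3), mul_max_of_nonneg _ _ (by positivity)]
    apply max_le_max (le_refl _)
    exact mul_le_mul_of_nonneg_right (pow_le_pow_right₀ hq (by norm_num)) (abs_nonneg _)
  have h2' : ((max |q ^ 4 * A| |q ^ 6 * B| : ℤ) : ℝ) ≤ ((q ^ 6 * max |A| |B| : ℤ) : ℝ) := by
    exact_mod_cast h2
  have h0 : (0 : ℝ) ≤ ((max |q ^ 4 * A| |q ^ 6 * B| : ℤ) : ℝ) := by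
    have : 0 ≤ max |q ^ 4 * A| |q ^ 6 * B| := (abs_nonneg _).trans (le_max_left _ _)
    exact_mod_cast this
  calc ((q ^ 2 * max |x| |y| : ℤ) : ℝ) ≤ ((max |q ^ 2 * x| |q ^ 3 * y| : ℤ) : ℝ) := by
        exact_mod_cast h3
    _ ≤ K * ((max |q ^ 4 * A| |q ^ 6 * B| : ℤ) : ℝ) ^ (7 / ε ^ 2) := h1
    _ ≤ K * ((q ^ 6 * max |A| |B| : ℤ) : ℝ) ^ (7 / ε ^ 2) := by
        apply mul_le_mul_of_nonneg_left _ (by linarith)
        exact Real.rpow_le_rpow h0 h2' (by positivity)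

lemma y_bound {A B x y : ℤ} {N X : ℝ} (hc : y ^ 2 = x ^ 3 + A * x + B) (hA : |(A : ℝ)| ≤ N)
    (hB : |(B : ℝ)| ≤ N) (hN : 1 ≤ N) (hX : 1 ≤ X) (hx : |(x : ℝ)| ≤ X ^ 2) :
    |(y : ℝ)| ≤ 2 * N * X ^ 3 := by
  have hcr : (y : ℝ) ^ 2 = x ^ 3 + A * x + B := by exact_mod_cast hc
  have e1 : (x : ℝ) ^ 3 ≤ X ^ 6 := by
    calc (x : ℝ) ^ 3 ≤ |(x : ℝ)| ^ 3 := by rw [← abs_pow]; exact le_abs_self _
      _ ≤ (X ^ 2) ^ 3 := pow_le_pow_left₀ (abs_nonneg _) hx 3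
      _ = X ^ 6 := by ring
  have e2 : (A : ℝ) * x ≤ N * X ^ 2 := by
    calc (A : ℝ) * x ≤ |(A : ℝ) * x| := le_abs_self _
      _ = |(A : ℝ)| * |(x : ℝ)| := abs_mul _ _
      _ ≤ N * X ^ 2 := mul_le_mul hA hx (abs_nonneg _) (by linarith)
  have e3 : (B : ℝ) ≤ N := (le_abs_self _).trans hB
  have h26 : X ^ 2 ≤ X ^ 6 := pow_le_pow_right₀ hX (by norm_num)
  have h06 : 1 ≤ X ^ 6 := one_le_pow₀ hX
  have h1 : |(y : ℝ)| ^ 2 ≤ (2 * N * X ^ 3) ^ 2 := by
    rw [sq_abs, hcr]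
    have e : (2 * N * X ^ 3) ^ 2 = 4 * (N * (N * X ^ 6)) := by ring
    rw [e]
    have f1 : N * X ^ 2 ≤ N * X ^ 6 := mul_le_mul_of_nonneg_left h26 (by linarith)
    have f2 : N ≤ N * X ^ 6 := le_mul_of_one_le_right (by linarith) h06
    have f3 : X ^ 6 ≤ N * X ^ 6 := le_mul_of_one_le_left (by positivity) hN
    have f4 : N * X ^ 6 ≤ N * (N * X ^ 6) := le_mul_of_one_le_left (by positivity) hN
    have f5 : 0 ≤ N * (N * X ^ 6) := by positivity
    linarith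
  exact (pow_le_pow_iff_left₀ (abs_nonneg _) (by positivity) (by norm_num)).mp h1

/-- denominators up to a power of `x` -/
theorem near_rat_power (ε : ℝ) (hε : 0 < ε) (hε1 : ε ≤ 1) (old : Old) : ∃ K : ℝ, 1 ≤ K ∧
    ∀ A B x y p q : ℤ, 4 * A ^ 3 + 27 * B ^ 2 ≠ 0 → y ^ 2 = x ^ 3 + A * x + B → 1 ≤ q →
      (q : ℝ) ≤ |(x : ℝ)| ^ (ε ^ 2 / 84) →
      |((p ^ 2 - x * q ^ 2 : ℤ) : ℝ)| ≤ |(p : ℝ)| ^ (1 - ε) →
      ((max |x| |y| : ℤ) : ℝ) ≤ K * ((max |A| |B| : ℤ) : ℝ) ^ (22 / ε ^ 2) := by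
  obtain ⟨K, hK, H⟩ := near_rat ε hε hε1 old
  have hε2 : ε ^ 2 ≤ 1 := pow_le_one₀ hε.le hε1
  have hε2' : 0 < ε ^ 2 := by positivity
  refine ⟨2 * K ^ 3, ?_, ?_⟩
  · have : 1 ≤ K ^ 3 := one_le_pow₀ hK
    linarith
  intro A B x y p q hns hc hq hqx hm
  have hN1 := one_le_max' hns
  have h1 := H A B x y p q hns hc hq hm
  set N : ℝ := ((max |A| |B| : ℤ) : ℝ) with hNd
  have hN : 1 ≤ N := by rw [hNd]; exact_mod_cast hN1
  have hA : |(A : ℝ)| ≤ N := by rw [hNd]; exact_mod_cast le_max_left |A| |B|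
  have hB : |(B : ℝ)| ≤ N := by rw [hNd]; exact_mod_cast le_max_right |A| |B|
  have hqr : (1 : ℝ) ≤ q := by exact_mod_cast hq
  have hx1 : 1 ≤ |(x : ℝ)| := by
    by_contra hcon
    push Not at hcon
    have h2 : |x| < 1 := by exact_mod_cast hcon
    have h3 : x = 0 := Int.abs_lt_one_iff.mp h2
    rw [h3] at hqx
    simp only [Int.cast_zero, abs_zero] at hqx
    rw [Real.zero_rpow (by positivity)] at hqx
    linarith
  have hxpos : 0 < |(x : ℝ)| := by linarith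
  -- bound for `|x|`
  have h4 : |(x : ℝ)| ≤ K * |(x : ℝ)| ^ (1 / 2 : ℝ) * N ^ (7 / ε ^ 2) := by
    have e1 : |(x : ℝ)| ≤ ((q ^ 2 * max |x| |y| : ℤ) : ℝ) := by
      push_cast
      have e2 : |(x : ℝ)| ≤ max |(x : ℝ)| |(y : ℝ)| := le_max_left _ _
      have e3 : (1 : ℝ) ≤ (q : ℝ) ^ 2 := one_le_pow₀ hqr
      have e4 : max |(x : ℝ)| |(y : ℝ)| ≤ (q : ℝ) ^ 2 * max |(x : ℝ)| |(y : ℝ)| :=
        le_mul_of_one_le_left (by positivity) e3
      linarith
    have e5 : ((q ^ 6 * max |A| |B| : ℤ) : ℝ) = (q : ℝ) ^ 6 * N := by rw [hNd]; push_cast; ring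
    rw [e5, Real.mul_rpow (by positivity) (by linarith)] at h1
    have e6 : ((q : ℝ) ^ 6) ^ (7 / ε ^ 2) ≤ |(x : ℝ)| ^ (1 / 2 : ℝ) := by
      calc ((q : ℝ) ^ 6) ^ (7 / ε ^ 2) ≤ ((|(x : ℝ)| ^ (ε ^ 2 / 84)) ^ 6) ^ (7 / ε ^ 2) := by
            apply Real.rpow_le_rpow (by positivity) _ (by positivity)
            exact pow_le_pow_left₀ (by linarith) hqx 6
        _ = |(x : ℝ)| ^ (1 / 2 : ℝ) := by
            rw [← Real.rpow_natCast, ← Real.rpow_mul hxpos.le, ← Real.rpow_mul hxpos.le]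
            congr 1
            push_cast
            field_simp
            norm_num
    calc |(x : ℝ)| ≤ K * (((q : ℝ) ^ 6) ^ (7 / ε ^ 2) * N ^ (7 / ε ^ 2)) := e1.trans h1
      _ ≤ K * (|(x : ℝ)| ^ (1 / 2 : ℝ) * N ^ (7 / ε ^ 2)) := by
          apply mul_le_mul_of_nonneg_left _ (by linarith)
          exact mul_le_mul_of_nonneg_right e6 (by positivity)
      _ = K * |(x : ℝ)| ^ (1 / 2 : ℝ) * N ^ (7 / ε ^ 2) := by ring
  set X : ℝ := K * N ^ (7 / ε ^ 2) with hX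
  have hNp : 1 ≤ N ^ (7 / ε ^ 2) := Real.one_le_rpow hN (by positivity)
  have hX1 : 1 ≤ X := one_le_mul_of_one_le_of_one_le hK hNp
  have h5 : |(x : ℝ)| ≤ X ^ 2 := by
    set s : ℝ := |(x : ℝ)| ^ (1 / 2 : ℝ) with hs
    have hs2 : s ^ 2 = |(x : ℝ)| := by
      rw [hs, ← Real.rpow_natCast, ← Real.rpow_mul hxpos.le]
      norm_num
    have hs0 : 0 < s := Real.rpow_pos_of_pos hxpos _
    have e1 : s * s ≤ s * X := by
      have : K * s * N ^ (7 / ε ^ 2) = s * X := by rw [hX]; ring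
      rw [← this, ← sq, hs2]; exact h4
    have e2 : s ≤ X := le_of_mul_le_mul_left e1 hs0
    rw [← hs2]
    exact pow_le_pow_left₀ hs0.le e2 2
  have h6 := y_bound hc hA hB hN hX1 h5
  have h7 : |(x : ℝ)| ≤ 2 * N * X ^ 3 := by
    have e1 : X ^ 2 ≤ X ^ 3 := pow_le_pow_right₀ hX1 (by norm_num)
    have e2 : X ^ 3 ≤ N * X ^ 3 := le_mul_of_one_le_left (by positivity) hN
    have e3 : 0 ≤ N * X ^ 3 := by positivity
    linarith
  have h8 : 2 * N * X ^ 3 ≤ 2 * K ^ 3 * N ^ (22 / ε ^ 2) := by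
    have e1 : X ^ 3 = K ^ 3 * N ^ (21 / ε ^ 2) := by
      rw [hX, mul_pow, ← Real.rpow_natCast (N ^ (7 / ε ^ 2)), ← Real.rpow_mul (by linarith)]
      congr 2
      push_cast; ring
    have e2 : N * N ^ (21 / ε ^ 2) ≤ N ^ (22 / ε ^ 2) := by
      have : N * N ^ (21 / ε ^ 2) = N ^ (21 / ε ^ 2 + 1) := by
        rw [Real.rpow_add (by linarith), Real.rpow_one, mul_comm]
      rw [this]
      apply Real.rpow_le_rpow_of_exponent_le hN
      have : 21 / ε ^ 2 + 1 = (21 + ε ^ 2) / ε ^ 2 := by field_simp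
      rw [this]
      apply div_le_div_of_nonneg_right _ hε2'.le
      linarith
    rw [e1]
    calc 2 * N * (K ^ 3 * N ^ (21 / ε ^ 2)) = 2 * K ^ 3 * (N * N ^ (21 / ε ^ 2)) := by ring
      _ ≤ 2 * K ^ 3 * N ^ (22 / ε ^ 2) := mul_le_mul_of_nonneg_left e2 (by positivity)
  push_cast
  exact max_le (h7.trans h8) (h6.trans h8)

lemma x_bound {x y A B N T : ℝ} (hc : y ^ 2 = x ^ 3 + A * x + B) (hA : |A| ≤ N)
    (hB : |B| ≤ N) (hN : 1 ≤ N) (hT : N ≤ T) (hy : |y| ≤ 2 * T ^ 3) : |x| ≤ 2 * T ^ 2 := by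
  by_contra hcon
  push Not at hcon
  have hT1 : 1 ≤ T := hN.trans hT
  have hT2 : T ≤ T ^ 2 := by rw [sq]; exact le_mul_of_one_le_left (by linarith) hT1
  have hx2 : 2 ≤ |x| := by linarith
  have hNx : N ≤ |x| / 2 := by linarith
  set a : ℝ := |x| with ha
  have h1 : a ^ 3 ≤ 4 * T ^ 6 + N * a + N := by
    have e1 : a ^ 3 = |x ^ 3| := by rw [ha, abs_pow]
    have e2 : x ^ 3 = y ^ 2 - A * x - B := by linarith
    rw [e1, e2]
    have e3 : |y ^ 2 - A * x - B| ≤ |y ^ 2| + |A * x| + |B| := by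
      have f1 := abs_sub (y ^ 2 - A * x) B
      have f2 := abs_sub (y ^ 2) (A * x)
      linarith
    have e4 : |y ^ 2| ≤ 4 * T ^ 6 := by
      rw [abs_pow]
      calc |y| ^ 2 ≤ (2 * T ^ 3) ^ 2 := pow_le_pow_left₀ (abs_nonneg _) hy 2
        _ = 4 * T ^ 6 := by ring
    have e5 : |A * x| ≤ N * a := by
      rw [abs_mul]; exact mul_le_mul_of_nonneg_right hA (abs_nonneg _)
    linarith
  have h2 : N * a ≤ a ^ 2 / 2 := by nlinarith
  have h3 : 8 * T ^ 6 ≤ a ^ 3 := by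
    calc 8 * T ^ 6 = (2 * T ^ 2) ^ 3 := by ring
      _ ≤ a ^ 3 := pow_le_pow_left₀ (by positivity) hcon.le 3
  have h4 : 2 * a ^ 2 ≤ a ^ 3 := by
    have : a ^ 3 = a * a ^ 2 := by ring
    rw [this]; exact mul_le_mul_of_nonneg_right hx2 (by positivity)
  have h5 : 4 * a ≤ a ^ 3 := by nlinarith
  have h6 : 0 < a ^ 3 := by positivity
  linarith

/-- `y` close to a cube -/
theorem near_cube (ε : ℝ) (hε : 0 < ε) (hε1 : ε ≤ 1) (old : Old) : ∃ K : ℝ, 1 ≤ K ∧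
    ∀ A B x y t : ℤ, 4 * A ^ 3 + 27 * B ^ 2 ≠ 0 → y ^ 2 = x ^ 3 + A * x + B →
      |((y - t ^ 3 : ℤ) : ℝ)| ≤ |(t : ℝ)| ^ (2 - ε) →
      ((max |x| |y| : ℤ) : ℝ) ≤ K * ((max |A| |B| : ℤ) : ℝ) ^ (28 / ε ^ 2) := by
  obtain ⟨K, hK, H⟩ := near_int (ε / 2) (by positivity) (by linarith) old
  have hε2 : ε ^ 2 ≤ 1 := pow_le_one₀ hε.le hε1
  have hε2' : 0 < ε ^ 2 := by positivity
  have hexp : 7 / (ε / 2) ^ 2 = 28 / ε ^ 2 := by field_simp; norm_num
  have h3e : 3 ≤ 28 / ε ^ 2 := by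
    rw [le_div_iff₀ hε2']; linarith
  set U : ℝ := (8 : ℝ) ^ (2 / ε) with hU
  have hU1 : 1 ≤ U := Real.one_le_rpow (by norm_num) (by positivity)
  refine ⟨K + 2 * U ^ 3, ?_, ?_⟩
  · have : 0 < U ^ 3 := by positivity
    linarith
  intro A B x y t hns hc hm
  have hN1 := one_le_max' hns
  set N : ℝ := ((max |A| |B| : ℤ) : ℝ) with hNd
  have hN : 1 ≤ N := by rw [hNd]; exact_mod_cast hN1
  have hA : |(A : ℝ)| ≤ N := by rw [hNd]; exact_mod_cast le_max_left |A| |B|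
  have hB : |(B : ℝ)| ≤ N := by rw [hNd]; exact_mod_cast le_max_right |A| |B|
  have hcr : (y : ℝ) ^ 2 = x ^ 3 + A * x + B := by exact_mod_cast hc
  set T : ℝ := |(t : ℝ)| with hT
  have hNpos : 0 < N ^ (28 / ε ^ 2) := Real.rpow_pos_of_pos (by linarith) _
  have hN3 : N ^ (3 : ℕ) ≤ N ^ (28 / ε ^ 2) := by
    rw [← Real.rpow_natCast]
    apply Real.rpow_le_rpow_of_exponent_le hN
    push_cast; exact h3e
  have habs3 : |(t : ℝ) ^ 3| = T ^ 3 := by rw [hT, abs_pow]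
  -- bound of `y`
  have hyT : ∀ W : ℝ, 1 ≤ W → T ≤ W → |(y : ℝ)| ≤ 2 * W ^ 3 := by
    intro W hW hTW
    have e1 : |(y : ℝ)| ≤ T ^ (2 - ε) + T ^ 3 := by
      have : (y : ℝ) = (y - t ^ 3) + t ^ 3 := by ring
      rw [this]
      refine (abs_add_le _ _).trans (add_le_add ?_ (le_of_eq habs3))
      push_cast at hm
      exact hm
    have hT0 : 0 ≤ T := abs_nonneg _
    have e2 : T ^ (2 - ε) ≤ W ^ 3 := by
      calc T ^ (2 - ε) ≤ W ^ (2 - ε) := Real.rpow_le_rpow hT0 hTW (by linarith)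
        _ ≤ W ^ ((3 : ℕ) : ℝ) := Real.rpow_le_rpow_of_exponent_le hW (by push_cast; linarith)
        _ = W ^ 3 := Real.rpow_natCast _ _
    have e3 : T ^ 3 ≤ W ^ 3 := pow_le_pow_left₀ hT0 hTW 3
    linarith
  rcases le_or_gt T (U * N) with hsmall | hbig
  · have hUN : 1 ≤ U * N := one_le_mul_of_one_le_of_one_le hU1 hN
    have hy := hyT (U * N) hUN hsmall
    have hx := x_bound hcr hA hB hN (le_mul_of_one_le_left (by linarith) hU1) hy
    have e1 : 2 * (U * N) ^ 3 ≤ (K + 2 * U ^ 3) * N ^ (28 / ε ^ 2) := by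
      calc 2 * (U * N) ^ 3 = 2 * U ^ 3 * N ^ 3 := by ring
        _ ≤ 2 * U ^ 3 * N ^ (28 / ε ^ 2) := mul_le_mul_of_nonneg_left hN3 (by positivity)
        _ ≤ _ := mul_le_mul_of_nonneg_right (by linarith) hNpos.le
    have e2 : 2 * (U * N) ^ 2 ≤ 2 * (U * N) ^ 3 := by
      have := pow_le_pow_right₀ hUN (by norm_num : 2 ≤ 3)
      linarith
    push_cast
    exact max_le (hx.trans (e2.trans e1)) (hy.trans e1)
  · have hUN : U ≤ U * N := le_mul_of_one_le_right (by linarith) hN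
    have hNU : N ≤ U * N := le_mul_of_one_le_left (by linarith) hU1
    have hT1 : 1 ≤ T := by linarith
    have hTN : N ≤ T := by linarith
    have hTpos : 0 < T := by linarith
    have hy := hyT T hT1 (le_refl _)
    have hx := x_bound hcr hA hB hN hTN hy
    have h8 : 8 * T ^ (1 - ε) ≤ T ^ (1 - ε / 2) := by
      have e1 : (8 : ℝ) ≤ T ^ (ε / 2) := by
        have e2 : U ^ (ε / 2) = 8 := by
          rw [hU, ← Real.rpow_mul (by norm_num)]
          have : 2 / ε * (ε / 2) = 1 := by field_simp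
          rw [this, Real.rpow_one]
        rw [← e2]
        exact Real.rpow_le_rpow (by linarith) (by linarith) (by positivity)
      have e3 : T ^ (1 - ε / 2) = T ^ (ε / 2) * T ^ (1 - ε) := by
        rw [← Real.rpow_add hTpos]; congr 1; ring
      rw [e3]
      exact mul_le_mul_of_nonneg_right e1 (by positivity)
    have hT1e : 1 ≤ T ^ (1 - ε) := Real.one_le_rpow hT1 (by linarith)
    have hkey : |(x : ℝ) - t ^ 2| ≤ 8 * T ^ (1 - ε) := by
      have hT2 : T ^ 2 = (t : ℝ) ^ 2 := sq_abs _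
      have hT4 : T ^ 4 = (t : ℝ) ^ 4 := by
        calc T ^ 4 = (T ^ 2) ^ 2 := by ring
          _ = (t : ℝ) ^ 4 := by rw [hT2]; ring
      have q1 : 3 / 4 * T ^ 4 ≤ (x : ℝ) ^ 2 + x * t ^ 2 + t ^ 4 := by
        rw [hT4]
        nlinarith [sq_nonneg ((x : ℝ) + t ^ 2 / 2)]
      have q2 : ((x : ℝ) - t ^ 2) * (x ^ 2 + x * t ^ 2 + t ^ 4) =
          (y - t ^ 3) * (y + t ^ 3) - A * x - B := by linear_combination (-1) * hcr
      have q3 : |(x : ℝ) - t ^ 2| * (3 / 4 * T ^ 4) ≤ 3 * (T ^ (1 - ε) * T ^ 4) + 3 * (N * T ^ 2) := by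
        calc |(x : ℝ) - t ^ 2| * (3 / 4 * T ^ 4)
            ≤ |(x : ℝ) - t ^ 2| * (x ^ 2 + x * t ^ 2 + t ^ 4) :=
              mul_le_mul_of_nonneg_left q1 (abs_nonneg _)
          _ = |((x : ℝ) - t ^ 2) * (x ^ 2 + x * t ^ 2 + t ^ 4)| := by
              rw [abs_mul]
              congr 1
              rw [abs_of_nonneg]
              have : 0 ≤ T ^ 4 := by positivity
              linarith
          _ = |((y : ℝ) - t ^ 3) * (y + t ^ 3) - A * x - B| := by rw [q2]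
          _ ≤ |((y : ℝ) - t ^ 3) * (y + t ^ 3)| + |(A : ℝ) * x| + |(B : ℝ)| := by
              have f1 := abs_sub (((y : ℝ) - t ^ 3) * (y + t ^ 3) - A * x) (B : ℝ)
              have f2 := abs_sub (((y : ℝ) - t ^ 3) * (y + t ^ 3)) ((A : ℝ) * x)
              linarith
          _ ≤ T ^ (2 - ε) * (3 * T ^ 3) + N * (2 * T ^ 2) + N := by
              have g1 : |((y : ℝ) - t ^ 3) * (y + t ^ 3)| ≤ T ^ (2 - ε) * (3 * T ^ 3) := by
                rw [abs_mul]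
                push_cast at hm
                apply mul_le_mul hm _ (abs_nonneg _) (by positivity)
                have := abs_add_le (y : ℝ) ((t : ℝ) ^ 3)
                rw [habs3] at this
                linarith
              have g2 : |(A : ℝ) * x| ≤ N * (2 * T ^ 2) := by
                rw [abs_mul]
                exact mul_le_mul hA hx (abs_nonneg _) (by linarith)
              linarith
          _ ≤ 3 * (T ^ (1 - ε) * T ^ 4) + 3 * (N * T ^ 2) := by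
              have g3 : T ^ (2 - ε) * (3 * T ^ 3) = 3 * (T ^ (1 - ε) * T ^ 4) := by
                have : T ^ (2 - ε) = T ^ (1 - ε) * T := by
                  rw [show 2 - ε = (1 - ε) + 1 by ring, Real.rpow_add hTpos, Real.rpow_one]
                rw [this]; ring
              have g4 : N ≤ N * T ^ 2 := le_mul_of_one_le_right (by linarith) (one_le_pow₀ hT1)
              rw [g3]
              linarith
      have q4 : N * T ^ 2 ≤ T ^ (1 - ε) * T ^ 4 := by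
        calc N * T ^ 2 ≤ T * T ^ 2 := mul_le_mul_of_nonneg_right hTN (by positivity)
          _ = T ^ 3 := by ring
          _ ≤ T ^ 4 := pow_le_pow_right₀ hT1 (by norm_num)
          _ ≤ T ^ (1 - ε) * T ^ 4 := le_mul_of_one_le_left (by positivity) hT1e
      have q5 : |(x : ℝ) - t ^ 2| * T ^ 4 ≤ (8 * T ^ (1 - ε)) * T ^ 4 := by linarith
      exact le_of_mul_le_mul_right q5 (by positivity)
    have h9 := H A B x y t hns hc (by push_cast; exact hkey.trans h8)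
    rw [hexp] at h9
    refine h9.trans ?_
    apply mul_le_mul_of_nonneg_right _ hNpos.le
    have : 0 < U ^ 3 := by positivity
    linarith

end Pool.Agent.LibHL18
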