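import Mathlib

/-!
Forms attached to `y^2 = x^3 + A x + B`: polynomials `h n` in `(t, x, y, A, B)` and polynomials
`lam n` in `(z, Y, V, A, B)`.
-/

namespace Pool.Agent.LibHL18

open MvPolynomial

/-- polynomials in five variables -/
abbrev P5 : Type := MvPolynomial (Fin 5) ℚ

/-- the derivation `-2 y d/dx - (3 x^2 + A) d/dy` in the variables `(t, x, y, A, B)` -/
noncomputable def DQ : Derivation ℚ P5 P5 :=
  mkDerivation ℚ ![0, -(2 * X 2), -(3 * X 1 ^ 2 + X 3), 0, 0]

/-- the derivation `Y d/dz` in the variables `(z, Y, V, A, B)` with `Y^2 = 1 + A z^4 + B z^6`,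
`V (1 + Y) = 1` -/
noncomputable def DL : Derivation ℚ P5 P5 :=
  mkDerivation ℚ ![X 1, 2 * X 3 * X 0 ^ 3 + 3 * X 4 * X 0 ^ 5,
    -(X 2 ^ 2 * (2 * X 3 * X 0 ^ 3 + 3 * X 4 * X 0 ^ 5)), 0, 0]

/-- the forms `h n` in `(t, x, y, A, B)` -/
noncomputable def h : ℕ → P5
  | 0 => 1
  | 1 => X 0
  | (n + 2) => C (1 / ((n : ℚ) + 2)) * (DQ (h (n + 1)) + X 0 * h (n + 1) - X 1 * h n)

/-- `q = (1 - Y) / z^2` -/
noncomputable def qq : P5 := -((X 3 * X 0 ^ 2 + X 4 * X 0 ^ 4) * X 2)

/-- the forms `lam n` in `(z, Y, V, A, B)` -/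
noncomputable def lam : ℕ → P5
  | 0 => X 0
  | 1 => 1
  | (n + 2) => C (1 / ((n : ℚ) + 2)) * (DL (lam (n + 1)) + X 0 * qq * lam (n + 1) - qq * lam n)

lemma DQ_X0 : DQ (X 0) = 0 := by simp [DQ]
lemma DQ_X1 : DQ (X 1) = -(2 * X 2) := by simp [DQ]
lemma DQ_X2 : DQ (X 2) = -(3 * X 1 ^ 2 + X 3) := by simp [DQ]
lemma DQ_X3 : DQ (X 3) = 0 := by simp [DQ]
lemma DQ_X4 : DQ (X 4) = 0 := by simp [DQ]
lemma DL_X0 : DL (X 0) = X 1 := by simp [DL]
lemma DL_X1 : DL (X 1) = 2 * X 3 * X 0 ^ 3 + 3 * X 4 * X 0 ^ 5 := by simp [DL]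
lemma DL_X2 : DL (X 2) = -(X 2 ^ 2 * (2 * X 3 * X 0 ^ 3 + 3 * X 4 * X 0 ^ 5)) := by simp [DL]
lemma DL_X3 : DL (X 3) = 0 := by simp [DL]
lemma DL_X4 : DL (X 4) = 0 := by simp [DL]

/-- `d/dt` commutes with `DQ` -/
lemma comm_t (p : P5) : pderiv 0 (DQ p) = DQ (pderiv 0 p) := by
  have key : ⁅(pderiv 0 : Derivation ℚ P5 P5), DQ⁆ = 0 := by
    apply MvPolynomial.derivation_ext
    intro i
    rw [Derivation.commutator_apply]
    have e2 : pderiv 0 (2 : P5) = 0 := by
      exact (pderiv (0 : Fin 5) : Derivation ℚ P5 P5).map_natCast 2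
    have e3 : pderiv 0 (3 : P5) = 0 := by
      exact (pderiv (0 : Fin 5) : Derivation ℚ P5 P5).map_natCast 3
    fin_cases i
    · simp [DQ_X0]
    · simp [DQ_X1, e2]
    · simp [DQ_X2, e3]
    · simp [DQ_X3]
    · simp [DQ_X4]
  have := congrArg (fun D : Derivation ℚ P5 P5 => D p) key
  simp only [Derivation.commutator_apply, Derivation.zero_apply] at this
  exact sub_eq_zero.mp this

lemma h_rec (n : ℕ) : C ((n : ℚ) + 1) * h (n + 1) =
    DQ (h n) + X 0 * h n - (match n with | 0 => 0 | (m + 1) => X 1 * h m) := by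
  cases n with
  | zero => simp [h]
  | succ n =>
    simp only [h]
    rw [← mul_assoc, ← C_mul]
    have : ((n + 1 : ℕ) : ℚ) + 1 = (n : ℚ) + 2 := by push_cast; ring
    rw [this, mul_one_div_cancel (by positivity), C_1, one_mul]

/-- Appell property -/
lemma pderiv_h (n : ℕ) : pderiv 0 (h (n + 1)) = h n := by
  induction n using Nat.strong_induction_on with
  | _ n ih =>
    cases n with
    | zero => simp [h]
    | succ n =>
      have e : pderiv 0 (h (n + 2)) = C (1 / ((n : ℚ) + 2)) *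
          (DQ (pderiv 0 (h (n + 1))) + (h (n + 1) + X 0 * pderiv 0 (h (n + 1)))
            - X 1 * pderiv 0 (h n)) := by
        rw [h]
        simp only [pderiv_mul, map_add, map_sub, pderiv_C, zero_mul, zero_add, comm_t,
          pderiv_X_self, one_mul]
        rw [pderiv_X_of_ne (by decide)]
        ring
      rw [e, ih n (by omega)]
      have r := h_rec n
      have f : DQ (h n) + (h (n + 1) + X 0 * h n) - X 1 * pderiv 0 (h n) =
          C ((n : ℚ) + 2) * h (n + 1) := by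
        have c : (C ((n : ℚ) + 2) : P5) = C ((n : ℚ) + 1) + 1 := by
          rw [← C_1, ← C_add]; congr 1; ring
        rw [c, add_mul, r]
        cases n with
        | zero => simp [h]
        | succ m => rw [ih m (by omega)]; ring
      rw [f, ← mul_assoc, ← C_mul, one_div_mul_cancel (by positivity), C_1, one_mul]

/-- chain rule along a curve -/
lemma hasDeriv_aeval {c : ℝ → Fin 5 → ℝ} {D1 D2 : Derivation ℚ P5 P5} {r1 r2 z0 : ℝ}
    (hc : ∀ i, HasDerivAt (fun z => c z i)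
      (r1 * aeval (c z0) (D1 (X i)) + r2 * aeval (c z0) (D2 (X i))) z0) (p : P5) :
    HasDerivAt (fun z => aeval (c z) p)
      (r1 * aeval (c z0) (D1 p) + r2 * aeval (c z0) (D2 p)) z0 := by
  induction p using MvPolynomial.induction_on with
  | C a => simp [hasDerivAt_const, MvPolynomial.derivation_C]
  | add p q hp hq =>
    have := hp.add hq
    simp only [map_add]
    exact this.congr_deriv (by ring)
  | mul_X p i hp =>
    have := hp.mul (hc i)
    simp only [map_mul, aeval_X, Derivation.leibniz, smul_eq_mul, map_add] at this ⊢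
    exact this.congr_deriv (by ring)

end Pool.Agent.LibHL18
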