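import Pool.Agent.LibHL18.Asymp

/-!
Weighted homogeneity of all polynomials, and the asymptotics with sharp powers of `N`.
-/

namespace Pool.Agent.LibHL18

open MvPolynomial

/-- weighted homogeneity, on the level of values -/
def Hom {n : ℕ} (w : Fin n → ℤ) (d : ℤ) (p : MvPolynomial (Fin n) ℚ) : Prop :=
  ∀ l : ℝ, 0 < l → ∀ v : Fin n → ℝ, aeval (fun i => l ^ (w i) * v i) p = l ^ d * aeval v p

lemma Hom.add {n : ℕ} {w : Fin n → ℤ} {d : ℤ} {p q : MvPolynomial (Fin n) ℚ} (hp : Hom w d p)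
    (hq : Hom w d q) : Hom w d (p + q) := by
  intro l hl v
  rw [map_add, map_add, hp l hl v, hq l hl v]; ring

lemma Hom.sub {n : ℕ} {w : Fin n → ℤ} {d : ℤ} {p q : MvPolynomial (Fin n) ℚ} (hp : Hom w d p)
    (hq : Hom w d q) : Hom w d (p - q) := by
  intro l hl v
  rw [map_sub, map_sub, hp l hl v, hq l hl v]; ring

lemma Hom.neg {n : ℕ} {w : Fin n → ℤ} {d : ℤ} {p : MvPolynomial (Fin n) ℚ} (hp : Hom w d p) :
    Hom w d (-p) := by
  intro l hl v
  rw [map_neg, map_neg, hp l hl v]; ring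

lemma Hom.zero {n : ℕ} {w : Fin n → ℤ} {d : ℤ} : Hom w d (0 : MvPolynomial (Fin n) ℚ) := by
  intro l hl v
  simp

lemma Hom.mul {n : ℕ} {w : Fin n → ℤ} {d e : ℤ} {p q : MvPolynomial (Fin n) ℚ} (hp : Hom w d p)
    (hq : Hom w e q) : Hom w (d + e) (p * q) := by
  intro l hl v
  rw [map_mul, map_mul, hp l hl v, hq l hl v, zpow_add₀ hl.ne']; ring

lemma Hom.const {n : ℕ} {w : Fin n → ℤ} (c : ℚ) : Hom w 0 (C c : MvPolynomial (Fin n) ℚ) := by
  intro l hl v
  simp

lemma Hom.X {n : ℕ} {w : Fin n → ℤ} (i : Fin n) :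
    Hom w (w i) (MvPolynomial.X i : MvPolynomial (Fin n) ℚ) := by
  intro l hl v
  simp

lemma Hom.pow {n : ℕ} {w : Fin n → ℤ} {d : ℤ} {p : MvPolynomial (Fin n) ℚ} (hp : Hom w d p)
    (k : ℕ) : Hom w (k * d) (p ^ k) := by
  intro l hl v
  rw [map_pow, map_pow, hp l hl v, mul_pow, ← zpow_natCast (l ^ d), ← zpow_mul, mul_comm d]

lemma Hom.cast {n : ℕ} {w : Fin n → ℤ} {d e : ℤ} {p : MvPolynomial (Fin n) ℚ} (hp : Hom w d p)
    (h : d = e) : Hom w e p := h ▸ hp

lemma Hom.sum {n : ℕ} {w : Fin n → ℤ} {d : ℤ} {ι : Type} (S : Finset ι)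
    (f : ι → MvPolynomial (Fin n) ℚ) (hf : ∀ i ∈ S, Hom w d (f i)) :
    Hom w d (∑ i ∈ S, f i) := by
  intro l hl v
  rw [map_sum, map_sum, Finset.mul_sum]
  exact Finset.sum_congr rfl (fun i hi => hf i hi l hl v)

lemma Hom.pderiv {w : Fin 5 → ℤ} {d : ℤ} {p : P5} (hp : Hom w d p) (i : Fin 5) :
    Hom w (d - w i) (pderiv i p) := by
  intro l hl v
  -- the curve
  have h1 := hasDeriv_aeval (c := fun (e : ℝ) j => l ^ (w j) * (v j + if j = i then e else 0))
    (D1 := MvPolynomial.pderiv i) (D2 := 0) (r1 := l ^ (w i)) (r2 := 0) (z0 := 0) ?_ p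
  · have h2 := hasDeriv_aeval (c := fun (e : ℝ) j => v j + if j = i then e else 0)
      (D1 := MvPolynomial.pderiv i) (D2 := 0) (r1 := 1) (r2 := 0) (z0 := 0) ?_ p
    · have h3 := h2.const_mul (l ^ d)
      have h4 : (fun e : ℝ => aeval (fun j => l ^ (w j) * (v j + if j = i then e else 0)) p) =
          fun e : ℝ => l ^ d * aeval (fun j => v j + if j = i then e else 0) p := by
        funext e
        exact hp l hl _
      rw [h4] at h1
      have h5 := h1.unique h3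
      simp only [ite_self, add_zero, zero_mul, one_mul] at h5
      have h6 : l ^ (w i) ≠ 0 := (zpow_pos hl _).ne'
      rw [zpow_sub₀ hl.ne', div_mul_eq_mul_div, eq_div_iff h6, mul_comm]
      exact h5
    · intro j
      by_cases hj : j = i
      · subst hj
        simpa using (hasDerivAt_id (0 : ℝ)).const_add (v j)
      · simpa [hj, pderiv_X_of_ne (Ne.symm hj)] using hasDerivAt_const (0 : ℝ) (v j)
  · intro j
    by_cases hj : j = i
    · subst hj
      simpa using ((hasDerivAt_id (0 : ℝ)).const_add (v j)).const_mul (l ^ (w j))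
    · simpa [hj, pderiv_X_of_ne (Ne.symm hj)] using
        hasDerivAt_const (0 : ℝ) (l ^ (w j) * v j)

lemma derivation_sum (D : Derivation ℚ P5 P5) (p : P5) :
    D p = ∑ j, pderiv j p * D (X j) := by
  induction p using MvPolynomial.induction_on with
  | C a => simp [MvPolynomial.derivation_C]
  | add p q hp hq =>
    rw [map_add, hp, hq, ← Finset.sum_add_distrib]
    exact Finset.sum_congr rfl (fun j _ => by rw [map_add]; ring)
  | mul_X p i hp =>
    rw [Derivation.leibniz, hp]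
    simp only [smul_eq_mul, pderiv_mul]
    have : ∀ j, (pderiv j p * X i + p * pderiv j (X i)) * D (X j) =
        X i * (pderiv j p * D (X j)) + p * (pderiv j (X i) * D (X j)) := fun j => by ring
    simp only [this, Finset.sum_add_distrib, ← Finset.mul_sum]
    have h2 : ∑ j, pderiv j (X i : P5) * D (X j) = D (X i) := by
      rw [Finset.sum_eq_single i]
      · simp
      · intro j _ hj
        rw [pderiv_X_of_ne (Ne.symm hj)]; simp
      · simp
    rw [h2]; ring

lemma Hom.derivation {w : Fin 5 → ℤ} {d : ℤ} {p : P5} (hp : Hom w d p)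
    (D : Derivation ℚ P5 P5) (hD : ∀ i, Hom w (w i + 1) (D (MvPolynomial.X i))) :
    Hom w (d + 1) (D p) := by
  rw [derivation_sum]
  apply Hom.sum
  intro i _
  exact ((hp.pderiv i).mul (hD i)).cast (by ring)

/-- weights of `(t, x, y, A, B)` -/
def wQ : Fin 5 → ℤ := ![1, 2, 3, 4, 6]

/-- weights of `(z, Y, V, A, B)` -/
def wL : Fin 5 → ℤ := ![-1, 0, 0, 4, 6]

/-- weights of `(A, B)` -/
def wR : Fin 2 → ℤ := ![4, 6]

lemma hom_two {n : ℕ} {w : Fin n → ℤ} : Hom w 0 (2 : MvPolynomial (Fin n) ℚ) := by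
  have : (2 : MvPolynomial (Fin n) ℚ) = C 2 := by rw [map_ofNat]
  rw [this]; exact Hom.const 2

lemma hom_three {n : ℕ} {w : Fin n → ℤ} : Hom w 0 (3 : MvPolynomial (Fin n) ℚ) := by
  have : (3 : MvPolynomial (Fin n) ℚ) = C 3 := by rw [map_ofNat]
  rw [this]; exact Hom.const 3

lemma hom_DQ {d : ℤ} {p : P5} (hp : Hom wQ d p) : Hom wQ (d + 1) (DQ p) := by
  apply hp.derivation
  intro i
  fin_cases i
  · simp only [Fin.zero_eta, Fin.isValue, DQ_X0]; exact Hom.zero
  · simp only [Fin.mk_one, Fin.isValue, DQ_X1]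
    exact ((hom_two.mul (Hom.X 2)).neg).cast (by simp [wQ])
  · simp only [Fin.reduceFinMk, Fin.isValue, DQ_X2]
    refine (Hom.add ?_ ?_).neg
    · exact (hom_three.mul ((Hom.X 1).pow 2)).cast (by simp [wQ])
    · exact (Hom.X 3).cast (by simp [wQ])
  · simp only [Fin.reduceFinMk, Fin.isValue, DQ_X3]; exact Hom.zero
  · simp only [Fin.reduceFinMk, Fin.isValue, DQ_X4]; exact Hom.zero

lemma hom_r : Hom wL 1 (2 * X 3 * X 0 ^ 3 + 3 * X 4 * X 0 ^ 5 : P5) := by
  refine Hom.add ?_ ?_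
  · exact ((hom_two.mul (Hom.X 3)).mul ((Hom.X 0).pow 3)).cast (by simp [wL])
  · exact ((hom_three.mul (Hom.X 4)).mul ((Hom.X 0).pow 5)).cast (by simp [wL])

lemma hom_DL {d : ℤ} {p : P5} (hp : Hom wL d p) : Hom wL (d + 1) (DL p) := by
  apply hp.derivation
  intro i
  fin_cases i
  · simp only [Fin.zero_eta, Fin.isValue, DL_X0]; exact (Hom.X 1).cast (by simp [wL])
  · simp only [Fin.mk_one, Fin.isValue, DL_X1]
    exact hom_r.cast (by simp [wL])
  · simp only [Fin.reduceFinMk, Fin.isValue, DL_X2]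
    exact ((((Hom.X 2).pow 2).mul hom_r).neg).cast (by simp [wL])
  · simp only [Fin.reduceFinMk, Fin.isValue, DL_X3]; exact Hom.zero
  · simp only [Fin.reduceFinMk, Fin.isValue, DL_X4]; exact Hom.zero

lemma hom_qq : Hom wL 2 qq := by
  refine (Hom.mul (d := 2) (e := 0) (Hom.add ?_ ?_) ?_).neg
  · exact ((Hom.X 3).mul ((Hom.X 0).pow 2)).cast (by simp [wL])
  · exact ((Hom.X 4).mul ((Hom.X 0).pow 4)).cast (by simp [wL])
  · exact (Hom.X 2).cast (by simp [wL])

theorem hom_h (n : ℕ) : Hom wQ n (h n) := by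
  induction n using Nat.strong_induction_on with
  | _ n ih =>
    match n, ih with
    | 0, _ => exact (Hom.const 1).cast (by simp)
    | 1, _ => exact (Hom.X 0).cast (by simp [wQ])
    | (n + 2), ih =>
      rw [h]
      have h0 := ih n (by omega)
      have h1 := ih (n + 1) (by omega)
      refine ((Hom.const _).mul (Hom.sub (Hom.add (d := (n : ℤ) + 2) ?_ ?_) ?_)).cast ?_
      · exact (hom_DQ h1).cast (by push_cast; ring)
      · exact ((Hom.X 0).mul h1).cast (by simp [wQ]; ring)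
      · exact ((Hom.X 1).mul h0).cast (by simp [wQ]; ring)
      · push_cast; ring

theorem hom_lam (n : ℕ) : Hom wL ((n : ℤ) - 1) (lam n) := by
  induction n using Nat.strong_induction_on with
  | _ n ih =>
    match n, ih with
    | 0, _ => exact (Hom.X 0).cast (by simp [wL])
    | 1, _ => exact (Hom.const 1).cast (by simp)
    | (n + 2), ih =>
      rw [lam]
      have h0 := ih n (by omega)
      have h1 := ih (n + 1) (by omega)
      refine ((Hom.const _).mul (Hom.sub (Hom.add (d := (n : ℤ) + 1) ?_ ?_) ?_)).cast ?_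
      · exact (hom_DL h1).cast (by push_cast; ring)
      · exact (((Hom.X 0).mul hom_qq).mul h1).cast (by simp [wL]; ring)
      · exact (hom_qq.mul h0).cast (by ring)
      · push_cast; ring

lemma aeval_ev0 (v : Fin 2 → ℝ) (p : P5) :
    aeval v (ev0 p) = aeval ![0, 1, 1 / 2, v 0, v 1] p := by
  rw [ev0, ← AlgHom.comp_apply]
  congr 1
  apply MvPolynomial.algHom_ext
  intro i
  fin_cases i <;> simp

lemma hom_ev0 {d : ℤ} {p : P5} (hp : Hom wL d p) : Hom wR d (ev0 p) := by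
  intro l hl v
  rw [aeval_ev0, aeval_ev0, ← hp l hl]
  congr 1
  congr 1
  ext i
  fin_cases i <;> simp [wL, wR]

lemma hom_aa (n : ℕ) : Hom wR ((n : ℤ) - 1) (aa n) := hom_ev0 (hom_lam n)

lemma hom_bb (n : ℕ) : Hom wR n (bb n) := (hom_ev0 (hom_DL (hom_lam n))).cast (by ring)

lemma series_hom {S : PowerSeries R2} (hS : ∀ n : ℕ, Hom wR n (PowerSeries.coeff n S)) {l : ℝ}
    (hl : 0 < l) (v : Fin 2 → ℝ) :
    PowerSeries.map ((aeval (fun i => l ^ (wR i) * v i) : R2 →ₐ[ℚ] ℝ) : R2 →+* ℝ) S =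
      PowerSeries.rescale l (PowerSeries.map ((aeval v : R2 →ₐ[ℚ] ℝ) : R2 →+* ℝ) S) := by
  ext n
  rw [PowerSeries.coeff_map, PowerSeries.coeff_rescale, PowerSeries.coeff_map]
  have := hS n l hl v
  rw [zpow_natCast] at this
  exact this

lemma hom_of_series {S : PowerSeries R2}
    (hS : ∀ l : ℝ, 0 < l → ∀ v : Fin 2 → ℝ,
      PowerSeries.map ((aeval (fun i => l ^ (wR i) * v i) : R2 →ₐ[ℚ] ℝ) : R2 →+* ℝ) S =
      PowerSeries.rescale l (PowerSeries.map ((aeval v : R2 →ₐ[ℚ] ℝ) : R2 →+* ℝ) S)) (n : ℕ) :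
    Hom wR n (PowerSeries.coeff n S) := by
  intro l hl v
  have := congrArg (PowerSeries.coeff n) (hS l hl v)
  rw [PowerSeries.coeff_map, PowerSeries.coeff_rescale, PowerSeries.coeff_map] at this
  rw [zpow_natCast]
  exact this

theorem hom_TT (n : ℕ) : Hom wR n (PowerSeries.coeff n TT) := by
  apply hom_of_series
  intro l hl v
  have hG := series_hom (S := GG) (fun (n : ℕ) => by
    rw [GG, PowerSeries.coeff_mk]
    exact (hom_aa (n + 1)).cast (by push_cast; ring)) hl v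
  set e1 : R2 →+* ℝ := ((aeval (fun i => l ^ (wR i) * v i) : R2 →ₐ[ℚ] ℝ) : R2 →+* ℝ)
  set e0 : R2 →+* ℝ := ((aeval v : R2 →ₐ[ℚ] ℝ) : R2 →+* ℝ)
  have h1 : PowerSeries.map e1 GG * PowerSeries.map e1 TT = 1 := by
    rw [← map_mul, GG_TT, map_one]
  have h0 : PowerSeries.map e1 GG * PowerSeries.rescale l (PowerSeries.map e0 TT) = 1 := by
    rw [hG, ← map_mul, ← map_mul, GG_TT, map_one, map_one]
  calc PowerSeries.map e1 TT = PowerSeries.map e1 TT *
        (PowerSeries.map e1 GG * PowerSeries.rescale l (PowerSeries.map e0 TT)) := by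
        rw [h0, mul_one]
    _ = (PowerSeries.map e1 GG * PowerSeries.map e1 TT) *
        PowerSeries.rescale l (PowerSeries.map e0 TT) := by ring
    _ = _ := by rw [h1, one_mul]

theorem hom_pi (n : ℕ) : Hom wR n (pi' n) := by
  apply hom_of_series
  intro l hl v
  have hT := series_hom hom_TT hl v
  have hB := series_hom (S := PowerSeries.mk bb) (fun (n : ℕ) => by
    rw [PowerSeries.coeff_mk]; exact hom_bb n) hl v
  rw [PiS, map_mul, map_mul, map_mul, hT, hB]

lemma aeval_inc' (v : Fin 5 → ℝ) (p : R2) : aeval v (inc p) = aeval ![v 3, v 4] p := by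
  rw [inc, ← AlgHom.comp_apply]
  congr 1
  apply MvPolynomial.algHom_ext
  intro i
  fin_cases i <;> simp

lemma hom_inc {d : ℤ} {p : R2} (hp : Hom wR d p) : Hom wQ d (inc p) := by
  intro l hl v
  rw [aeval_inc', aeval_inc', ← hp l hl]
  congr 1
  congr 1
  ext i
  fin_cases i <;> simp [wQ, wR]

theorem hom_FF (w : ℕ) : Hom wQ w (FF w) := by
  rw [FF]
  apply Hom.sub
  · apply Hom.sum
    rintro ⟨i, j⟩ hij
    have hij' := Finset.HasAntidiagonal.mem_antidiagonal.mp hij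
    simp only at hij'
    exact ((hom_inc (hom_TT i)).mul (hom_h j)).cast (by rw [← hij']; push_cast; ring)
  · exact hom_inc (hom_pi w)

/-- asymptotics with sharp powers: `N = l^4` -/
theorem asympS (m : ℕ) : ∃ C : ℝ, 0 ≤ C ∧ ∀ A B l z r : ℝ, 1 ≤ l → Adm A B (l ^ 4) z →
    |r| ≤ 1 →
    |aeval ![z⁻¹ + r, (z⁻¹) ^ 2, yv A B z, A, B] (FF (m + 2))
    - (z⁻¹ * r ^ (m + 1) / ((m + 1).factorial : ℝ) + aeval ![A, B] (pi' (m + 1)) * r
      + aeval ![A, B] (pi' m) * (r ^ 2 / 2))| ≤ C * l ^ (m + 3) * (|r| ^ 3 + z) := by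
  obtain ⟨C, c, hC, H⟩ := asymp m
  refine ⟨C, hC, ?_⟩
  intro A B l z r hl hA hr
  have hl0 : 0 < l := by linarith
  have hz := hA.hz
  have hl4 : l ^ 4 ≤ l ^ 6 := pow_le_pow_right₀ hl (by norm_num)
  have adm : Adm (A / l ^ 4) (B / l ^ 6) 1 (l * z) := by
    refine ⟨le_refl _, ?_, ?_, by positivity, ?_⟩
    · rw [abs_div, abs_of_pos (by positivity : 0 < l ^ 4), div_le_one (by positivity)]
      exact hA.hA
    · rw [abs_div, abs_of_pos (by positivity : 0 < l ^ 6), div_le_one (by positivity)]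
      exact hA.hB.trans hl4
    · have := hA.hs
      calc 4 * 1 * (l * z) ^ 4 = 4 * l ^ 4 * z ^ 4 := by ring
        _ ≤ 1 := this
  have hr' : |r / l| ≤ 1 := by
    rw [abs_div, abs_of_pos hl0, div_le_one hl0]
    linarith
  have k := H (A / l ^ 4) (B / l ^ 6) 1 (l * z) (r / l) adm hr'
  simp only [one_pow, mul_one] at k
  -- scale back
  have hFF : aeval ![z⁻¹ + r, (z⁻¹) ^ 2, yv A B z, A, B] (FF (m + 2)) = l ^ (m + 2) *
      aeval ![(l * z)⁻¹ + r / l, ((l * z)⁻¹) ^ 2, yv (A / l ^ 4) (B / l ^ 6) (l * z),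
        A / l ^ 4, B / l ^ 6] (FF (m + 2)) := by
    have := hom_FF (m + 2) l hl0 ![(l * z)⁻¹ + r / l, ((l * z)⁻¹) ^ 2,
      yv (A / l ^ 4) (B / l ^ 6) (l * z), A / l ^ 4, B / l ^ 6]
    rw [zpow_natCast] at this
    rw [← this]
    congr 1
    congr 1
    have hy : yv A B z = l ^ 3 * yv (A / l ^ 4) (B / l ^ 6) (l * z) := by
      rw [yv, yv]
      have e : 1 + A / l ^ 4 * (l * z) ^ 4 + B / l ^ 6 * (l * z) ^ 6 = 1 + A * z ^ 4 + B * z ^ 6 := by
        field_simp
      rw [e]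
      field_simp
    ext i
    fin_cases i
    · simp [wQ]; field_simp
    · simp [wQ]; field_simp
    · simp [wQ, hy]
    · simp [wQ]; field_simp
    · simp [wQ]; field_simp
  have hpi : ∀ n : ℕ, aeval ![A, B] (pi' n) = l ^ n * aeval ![A / l ^ 4, B / l ^ 6] (pi' n) := by
    intro n
    have := hom_pi n l hl0 ![A / l ^ 4, B / l ^ 6]
    rw [zpow_natCast] at this
    rw [← this]
    congr 1
    congr 1
    ext i
    fin_cases i
    · simp [wR]; field_simp
    · simp [wR]; field_simp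
  rw [hFF, hpi (m + 1), hpi m]
  generalize aeval ![(l * z)⁻¹ + r / l, ((l * z)⁻¹) ^ 2, yv (A / l ^ 4) (B / l ^ 6) (l * z),
        A / l ^ 4, B / l ^ 6] (FF (m + 2)) = F at *
  generalize aeval ![A / l ^ 4, B / l ^ 6] (pi' (m + 1)) = p1 at *
  generalize aeval ![A / l ^ 4, B / l ^ 6] (pi' m) = p0 at *
  have e : l ^ (m + 2) * F - (z⁻¹ * r ^ (m + 1) / ((m + 1).factorial : ℝ) + l ^ (m + 1) * p1 * r
      + l ^ m * p0 * (r ^ 2 / 2)) = l ^ (m + 2) * (F - ((l * z)⁻¹ * (r / l) ^ (m + 1) /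
        ((m + 1).factorial : ℝ) + p1 * (r / l) + p0 * ((r / l) ^ 2 / 2))) := by
    have hf : ((m + 1).factorial : ℝ) ≠ 0 := by positivity
    have e1 : (l * z)⁻¹ * (r / l) ^ (m + 1) = z⁻¹ * r ^ (m + 1) / l ^ (m + 2) := by
      rw [div_pow, mul_inv]; field_simp; ring
    rw [e1]
    field_simp
    ring
  rw [e, abs_mul, abs_of_pos (by positivity : 0 < l ^ (m + 2))]
  have k2 : |r / l| ^ 3 + l * z ≤ l * (|r| ^ 3 + z) := by
    rw [abs_div, abs_of_pos hl0, div_pow]
    have e2 : |r| ^ 3 / l ^ 3 ≤ |r| ^ 3 := div_le_self (by positivity) (one_le_pow₀ hl)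
    have e3 : |r| ^ 3 ≤ l * |r| ^ 3 := le_mul_of_one_le_left (by positivity) hl
    linarith
  calc l ^ (m + 2) * |F - ((l * z)⁻¹ * (r / l) ^ (m + 1) /
        ((m + 1).factorial : ℝ) + p1 * (r / l) + p0 * ((r / l) ^ 2 / 2))|
      ≤ l ^ (m + 2) * (C * (|r / l| ^ 3 + l * z)) := mul_le_mul_of_nonneg_left k (by positivity)
    _ ≤ l ^ (m + 2) * (C * (l * (|r| ^ 3 + z))) := by
        apply mul_le_mul_of_nonneg_left _ (by positivity)
        exact mul_le_mul_of_nonneg_left k2 hC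
    _ = C * l ^ (m + 3) * (|r| ^ 3 + z) := by ring

/-- sharp bound for the constants -/
theorem piS (n : ℕ) : ∃ C : ℝ, 0 ≤ C ∧ ∀ A B l : ℝ, 1 ≤ l → |A| ≤ l ^ 4 → |B| ≤ l ^ 4 →
    |aeval ![A, B] (pi' n)| ≤ C * l ^ n := by
  obtain ⟨C, c, hC, H⟩ := poly_bound (pi' n)
  refine ⟨C, hC, ?_⟩
  intro A B l hl hA hB
  have hl0 : 0 < l := by linarith
  have hl4 : l ^ 4 ≤ l ^ 6 := pow_le_pow_right₀ hl (by norm_num)
  have k := H (A / l ^ 4) (B / l ^ 6) 1 (le_refl _)
    (by rw [abs_div, abs_of_pos (by positivity : 0 < l ^ 4), div_le_one (by positivity)]; exact hA)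
    (by rw [abs_div, abs_of_pos (by positivity : 0 < l ^ 6), div_le_one (by positivity)]
        exact hB.trans hl4)
  have hpi : aeval ![A, B] (pi' n) = l ^ n * aeval ![A / l ^ 4, B / l ^ 6] (pi' n) := by
    have := hom_pi n l hl0 ![A / l ^ 4, B / l ^ 6]
    rw [zpow_natCast] at this
    rw [← this]
    congr 1
    congr 1
    ext i
    fin_cases i
    · simp [wR]; field_simp
    · simp [wR]; field_simp
  rw [hpi, abs_mul, abs_of_pos (by positivity : 0 < l ^ n)]
  simp only [one_pow, mul_one] at k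
  calc l ^ n * |aeval ![A / l ^ 4, B / l ^ 6] (pi' n)| ≤ l ^ n * C :=
        mul_le_mul_of_nonneg_left k (by positivity)
    _ = C * l ^ n := by ring

end Pool.Agent.LibHL18
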