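import Pool.Agent.LibHL18.Step
import Pool.Agent.LibHall.LangFour

/-!
The Hall-Lang inequality when `sqrt x` is close to an integer.
-/

namespace Pool.Agent.LibHL18

open MvPolynomial

/-- a point in the relevant region -/
structure Pt (A B t x y : ℤ) (N z : ℝ) : Prop where
  adm : Adm A B N z
  hx : (x : ℝ) = (z⁻¹) ^ 2
  hy : (y : ℝ) = yv A B z
  h1 : |(t : ℝ) - z⁻¹| ≤ 1
  h50 : 1 ≤ 50 * (z⁻¹ * |(t : ℝ) - z⁻¹| ^ 3)

lemma Pt.ne {A B t x y : ℤ} {N z : ℝ} (H : Pt A B t x y N z) : (t : ℝ) - z⁻¹ ≠ 0 := by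
  intro h
  have := H.h50
  rw [h] at this
  norm_num at this

/-- lower bound for `s |r|^n` -/
theorem lower (n : ℕ) (hn : 3 ≤ n) : ∃ d C : ℝ, 0 < d ∧ 0 < C ∧
    ∀ (A B t x y : ℤ) (l z : ℝ), 1 ≤ l → Pt A B t x y (l ^ 4) z →
      C * l ^ (n + 3) * |(t : ℝ) - z⁻¹| ≤ 1 → d ≤ z⁻¹ * |(t : ℝ) - z⁻¹| ^ n := by
  induction n, hn using Nat.le_induction with
  | base =>
    refine ⟨1 / 50, 1, by norm_num, by norm_num, ?_⟩
    intro A B t x y l z _ H _
    linarith [H.h50]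
  | succ n hn ih =>
    obtain ⟨d, C, hd, hC, H⟩ := ih
    obtain ⟨d', C', hd', hC', H'⟩ := step (n + 1) (by omega)
    refine ⟨d', C + C' + 2 * C' / d, hd', by positivity, ?_⟩
    intro A B t x y l z hl P hs
    have hr : 0 < |(t : ℝ) - z⁻¹| := abs_pos.mpr P.ne
    have hl0 : 0 < l := by linarith
    have e0 : l ^ (n + 3) ≤ l ^ (n + 1 + 3) := pow_le_pow_right₀ hl (by omega)
    have hNpos : 0 < l ^ (n + 1 + 3) := by positivity
    have k0 : C * l ^ (n + 3) * |(t : ℝ) - z⁻¹| ≤ 1 := by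
      refine le_trans ?_ hs
      apply mul_le_mul_of_nonneg_right _ hr.le
      apply mul_le_mul _ e0 (by positivity) (by positivity)
      have : 0 < 2 * C' / d := by positivity
      linarith
    have k1 : C' * l ^ (n + 1 + 3) * |(t : ℝ) - z⁻¹| ≤ 1 := by
      refine le_trans ?_ hs
      apply mul_le_mul_of_nonneg_right _ hr.le
      apply mul_le_mul_of_nonneg_right _ hNpos.le
      have : 0 < 2 * C' / d := by positivity
      linarith
    have k2 : 2 * C' / d * l ^ (n + 1 + 3) * |(t : ℝ) - z⁻¹| ≤ 1 := by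
      refine le_trans ?_ hs
      apply mul_le_mul_of_nonneg_right _ hr.le
      apply mul_le_mul_of_nonneg_right _ hNpos.le
      linarith
    by_contra hcon
    push Not at hcon
    have s1 := H' A B t x y l z hl P.adm P.hx P.hy P.ne P.h1 P.h50 k1 hcon.le
    simp only [Nat.add_sub_cancel] at s1
    have s2 := H A B t x y l z hl P k0
    have s3 : d ≤ C' * l ^ (n + 1 + 3) * |(t : ℝ) - z⁻¹| := s2.trans s1
    have s4 : 2 * C' / d * l ^ (n + 1 + 3) * |(t : ℝ) - z⁻¹| =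
        2 * (C' * l ^ (n + 1 + 3) * |(t : ℝ) - z⁻¹|) / d := by
      ring
    rw [s4, div_le_one hd] at k2
    linarith

/-- the bound for `t` -/
theorem t_bound (ε : ℝ) (hε : 0 < ε) (hε1 : ε ≤ 1) : ∃ K : ℝ, 1 ≤ K ∧
    ∀ A B x y t : ℤ, 1 ≤ max |A| |B| → 0 ≤ y → 1 ≤ t → y ^ 2 = x ^ 3 + A * x + B →
      |((x - t ^ 2 : ℤ) : ℝ)| ≤ (t : ℝ) ^ (1 - ε) → t ^ 2 < 2 * |x - t ^ 2| ^ 3 →
      (t : ℝ) ≤ K * ((max |A| |B| : ℤ) : ℝ) ^ (7 / (4 * ε ^ 2)) := by
  set n : ℕ := ⌈1 / ε⌉₊ with hn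
  have hn1 : 1 / ε ≤ n := Nat.le_ceil _
  have hn2 : (n : ℝ) < 1 / ε + 1 := Nat.ceil_lt_add_one (by positivity)
  have hn3 : 1 ≤ n := by
    have h1 : (1 : ℝ) ≤ 1 / ε := by rw [le_div_iff₀ hε]; linarith
    have h2 : (1 : ℝ) ≤ n := h1.trans hn1
    exact_mod_cast h2
  obtain ⟨d, C, hd, hC, H⟩ := lower (n + 2) (by omega)
  set K : ℝ := 64 + (2 / d) ^ (1 / (2 * ε)) + (C ^ (1 / ε) + 1) with hK
  have hCe : 0 < C ^ (1 / ε) := Real.rpow_pos_of_pos hC _
  have h2d : 0 < (2 / d) ^ (1 / (2 * ε)) := Real.rpow_pos_of_pos (by positivity) _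
  refine ⟨K, by linarith, ?_⟩
  intro A B x y t hNn hy0 ht1 hc hm h3
  have hε2 : ε ^ 2 ≤ 1 := pow_le_one₀ hε.le hε1
  have hε2' : 0 < ε ^ 2 := by positivity
  have hM1 : 1 ≤ 7 / (4 * ε ^ 2) := by
    rw [le_div_iff₀ (by positivity)]; linarith
  set Nz : ℤ := max |A| |B| with hNz
  have hAz : |A| ≤ Nz := le_max_left _ _
  have hBz : |B| ≤ Nz := le_max_right _ _
  set N : ℝ := (Nz : ℝ) with hNdef
  have hN : (1 : ℝ) ≤ N := by rw [hNdef]; exact_mod_cast hNn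
  have hA : |(A : ℝ)| ≤ N := by rw [hNdef]; exact_mod_cast hAz
  have hB : |(B : ℝ)| ≤ N := by rw [hNdef]; exact_mod_cast hBz
  have hNM : N ≤ N ^ (7 / (4 * ε ^ 2)) := by
    conv_lhs => rw [← Real.rpow_one N]
    exact Real.rpow_le_rpow_of_exponent_le hN hM1
  have hNM1 : 1 ≤ N ^ (7 / (4 * ε ^ 2)) := hN.trans hNM
  have htr : (1 : ℝ) ≤ t := by exact_mod_cast ht1
  have htpos : (0 : ℝ) < t := by linarith
  rcases lt_or_ge (t : ℝ) 4 with ht4 | ht4
  · have h4K : (4 : ℝ) ≤ K := by linarith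
    have := le_mul_of_one_le_right (by linarith : 0 ≤ K) hNM1
    linarith
  rcases lt_or_ge ((t : ℝ) ^ 4) (64 * N) with ht64 | ht64
  · have h1 : (t : ℝ) ≤ t ^ 4 := le_self_pow₀ htr (by norm_num)
    have h2 : 64 * N ≤ K * N ^ (7 / (4 * ε ^ 2)) := by
      apply mul_le_mul _ hNM (by linarith) (by linarith)
      linarith
    linarith
  -- main region
  set m : ℝ := ((x - t ^ 2 : ℤ) : ℝ) with hmdef
  have hmx : (x : ℝ) = t ^ 2 + m := by rw [hmdef]; push_cast; ring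
  have hmt : |m| ≤ t := by
    refine hm.trans ?_
    conv_rhs => rw [← Real.rpow_one (t : ℝ)]
    apply Real.rpow_le_rpow_of_exponent_le htr; linarith
  have h4t : 4 * (t : ℝ) ≤ t ^ 2 := by
    rw [sq]; exact mul_le_mul_of_nonneg_right ht4 htpos.le
  have hx1 : 3 / 4 * (t : ℝ) ^ 2 ≤ x := by
    have := (abs_le.mp hmt).1
    linarith
  have hx2 : (x : ℝ) ≤ 5 / 4 * t ^ 2 := by
    have := (abs_le.mp hmt).2
    linarith
  have hxpos : (0 : ℝ) < x := by
    have : (0 : ℝ) < t ^ 2 := by positivity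
    linarith
  set s : ℝ := Real.sqrt x with hs
  have hs2 : s ^ 2 = x := Real.sq_sqrt hxpos.le
  have hspos : 0 < s := Real.sqrt_pos.mpr hxpos
  have hs1 : 4 / 5 * (t : ℝ) ≤ s := by
    apply Real.le_sqrt_of_sq_le
    have e : (4 / 5 * (t : ℝ)) ^ 2 = 16 / 25 * t ^ 2 := by ring
    have : (0 : ℝ) < t ^ 2 := by positivity
    linarith
  have hs3 : s ≤ 6 / 5 * t := by
    rw [hs, Real.sqrt_le_left (by linarith)]
    have e : (6 / 5 * (t : ℝ)) ^ 2 = 36 / 25 * t ^ 2 := by ring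
    have : (0 : ℝ) < t ^ 2 := by positivity
    linarith
  set z : ℝ := s⁻¹ with hz
  have hzpos : 0 < z := inv_pos.mpr hspos
  have hzi : z⁻¹ = s := inv_inv s
  have adm : Adm A B N z := by
    refine ⟨hN, hA, hB, hzpos, ?_⟩
    have h1 : z ^ 4 * (x : ℝ) ^ 2 = 1 := by
      rw [← hs2, hz]; field_simp
    have h2 : 4 * N ≤ (x : ℝ) ^ 2 := by
      have h5 : (3 / 4 * (t : ℝ) ^ 2) ^ 2 ≤ (x : ℝ) ^ 2 := pow_le_pow_left₀ (by positivity) hx1 2
      have h6 : (3 / 4 * (t : ℝ) ^ 2) ^ 2 = 9 / 16 * t ^ 4 := by ring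
      linarith
    have hz4 : 0 < z ^ 4 := by positivity
    have h7 := mul_le_mul_of_nonneg_right h2 hz4.le
    linarith
  have hw := adm.w_pos
  have hyv : (y : ℝ) = yv A B z := by
    have hyr : (0 : ℝ) ≤ y := by exact_mod_cast hy0
    have hcr : (y : ℝ) ^ 2 = x ^ 3 + A * x + B := by exact_mod_cast hc
    have hv0 : 0 ≤ yv A B z := by rw [yv]; positivity
    have hv : yv A B z ^ 2 = x ^ 3 + A * x + B := by
      rw [yv, mul_pow, Real.sq_sqrt hw.le, hzi, ← hs2, hz]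
      field_simp
    have : (y : ℝ) ^ 2 = yv A B z ^ 2 := by rw [hcr, hv]
    exact (pow_left_inj₀ hyr hv0 (by norm_num)).mp this
  -- the distance
  have hrho : (t - s) * (t + s) = -m := by
    have : s ^ 2 = t ^ 2 + m := by rw [hs2, hmx]
    linear_combination (-1) * this
  have habs : |(t : ℝ) - s| * (t + s) = |m| := by
    have := congrArg abs hrho
    rw [abs_mul, abs_neg, abs_of_pos (by linarith : (0:ℝ) < t + s)] at this
    exact this
  have hrle : |(t : ℝ) - s| ≤ (t : ℝ) ^ (-ε) := by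
    have h1 : |(t : ℝ) - s| * t ≤ (t : ℝ) ^ (1 - ε) := by
      have : |(t : ℝ) - s| * t ≤ |(t : ℝ) - s| * (t + s) :=
        mul_le_mul_of_nonneg_left (by linarith) (abs_nonneg _)
      linarith
    have h2 : (t : ℝ) ^ (1 - ε) = t ^ (-ε) * t := by
      rw [show 1 - ε = -ε + 1 by ring, Real.rpow_add htpos, Real.rpow_one]
    rw [h2] at h1
    exact le_of_mul_le_mul_right h1 htpos
  have hte1 : (t : ℝ) ^ (-ε) ≤ 1 := Real.rpow_le_one_of_one_le_of_nonpos htr (by linarith)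
  have h50 : 1 ≤ 50 * (z⁻¹ * |(t : ℝ) - z⁻¹| ^ 3) := by
    rw [hzi]
    have h3r : (t : ℝ) ^ 2 < 2 * |m| ^ 3 := by
      rw [hmdef]; exact_mod_cast h3
    rw [← habs, mul_pow] at h3r
    have hts : (t + s) ^ 3 ≤ (11 / 5 * (t : ℝ)) ^ 3 := pow_le_pow_left₀ (by linarith) (by linarith) 3
    have hrp : 0 ≤ |(t : ℝ) - s| ^ 3 := by positivity
    have h5 : (t : ℝ) ^ 2 ≤ 2 * (|(t : ℝ) - s| ^ 3 * (11 / 5 * (t : ℝ)) ^ 3) := by
      have := mul_le_mul_of_nonneg_left hts hrp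
      linarith
    have h6 : 2 * (|(t : ℝ) - s| ^ 3 * (11 / 5 * (t : ℝ)) ^ 3) =
        (2662 / 125 * (t * |(t : ℝ) - s| ^ 3)) * t ^ 2 := by ring
    rw [h6] at h5
    have h7 : 1 ≤ 2662 / 125 * (t * |(t : ℝ) - s| ^ 3) := by
      have ht2 : (0 : ℝ) < t ^ 2 := by positivity
      have : 1 * (t : ℝ) ^ 2 ≤ (2662 / 125 * (t * |(t : ℝ) - s| ^ 3)) * t ^ 2 := by
        rw [one_mul]; exact h5
      exact le_of_mul_le_mul_right this ht2
    have h8 : 4 / 5 * (t * |(t : ℝ) - s| ^ 3) ≤ s * |(t : ℝ) - s| ^ 3 := by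
      have := mul_le_mul_of_nonneg_right hs1 hrp
      linarith
    linarith
  -- the scale
  set l : ℝ := N ^ (1 / 4 : ℝ) with hldef
  have hl1 : 1 ≤ l := Real.one_le_rpow hN (by norm_num)
  have hl0 : 0 < l := by linarith
  have hl4 : l ^ 4 = N := by
    rw [hldef, ← Real.rpow_natCast, ← Real.rpow_mul (by linarith)]
    norm_num
  have P : Pt A B t x y (l ^ 4) z := by
    rw [hl4]
    refine ⟨adm, ?_, hyv, ?_, h50⟩
    · rw [hzi, hs2]
    · rw [hzi]; exact hrle.trans hte1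
  rcases le_or_gt (C * l ^ (n + 2 + 3) * |(t : ℝ) - z⁻¹|) 1 with hle | hgt
  · have hl := H A B t x y l z hl1 P hle
    rw [hzi] at hl
    have h1 : |(t : ℝ) - s| ^ (n + 2) ≤ (t : ℝ) ^ (-(1 + 2 * ε)) := by
      calc |(t : ℝ) - s| ^ (n + 2) ≤ ((t : ℝ) ^ (-ε)) ^ (n + 2) :=
            pow_le_pow_left₀ (abs_nonneg _) hrle _
        _ = (t : ℝ) ^ (-ε * ((n + 2 : ℕ) : ℝ)) := by
            rw [← Real.rpow_natCast, ← Real.rpow_mul htpos.le]
        _ ≤ (t : ℝ) ^ (-(1 + 2 * ε)) := by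
            apply Real.rpow_le_rpow_of_exponent_le htr
            rw [div_le_iff₀ hε] at hn1
            push_cast
            linarith
    have h3 : d ≤ 6 / 5 * t * (t : ℝ) ^ (-(1 + 2 * ε)) := by
      refine hl.trans ?_
      apply mul_le_mul hs3 h1 (by positivity) (by positivity)
    have h4 : 6 / 5 * t * (t : ℝ) ^ (-(1 + 2 * ε)) = 6 / 5 / (t : ℝ) ^ (2 * ε) := by
      rw [Real.rpow_neg htpos.le, Real.rpow_add htpos, Real.rpow_one]
      field_simp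
    have hte : 0 < (t : ℝ) ^ (2 * ε) := Real.rpow_pos_of_pos htpos _
    rw [h4, le_div_iff₀ hte] at h3
    have h5 : (t : ℝ) ^ (2 * ε) ≤ 2 / d := by
      rw [le_div_iff₀ hd]; linarith
    have h6 : (t : ℝ) ≤ (2 / d) ^ (1 / (2 * ε)) := by
      have : ((t : ℝ) ^ (2 * ε)) ^ (1 / (2 * ε)) ≤ (2 / d) ^ (1 / (2 * ε)) :=
        Real.rpow_le_rpow (by positivity) h5 (by positivity)
      rwa [← Real.rpow_mul htpos.le, mul_one_div_cancel (by positivity), Real.rpow_one] at this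
    have : (t : ℝ) ≤ K := by linarith
    calc (t : ℝ) ≤ K := this
      _ ≤ K * N ^ (7 / (4 * ε ^ 2)) := le_mul_of_one_le_right (by linarith) hNM1
  · rw [hzi] at hgt
    have h1 : (t : ℝ) ^ ε < C * l ^ (n + 2 + 3) := by
      have hCN : 0 < C * l ^ (n + 2 + 3) := by positivity
      have h2 : 1 < C * l ^ (n + 2 + 3) * (t : ℝ) ^ (-ε) :=
        hgt.trans_le (mul_le_mul_of_nonneg_left hrle hCN.le)
      rw [Real.rpow_neg htpos.le] at h2
      have hte : 0 < (t : ℝ) ^ ε := Real.rpow_pos_of_pos htpos _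
      rw [← div_eq_mul_inv, lt_div_iff₀ hte, one_mul] at h2
      exact h2
    have h2 : (t : ℝ) ≤ (C * l ^ (n + 2 + 3)) ^ (1 / ε) := by
      have : ((t : ℝ) ^ ε) ^ (1 / ε) ≤ (C * l ^ (n + 2 + 3)) ^ (1 / ε) :=
        Real.rpow_le_rpow (by positivity) h1.le (by positivity)
      rwa [← Real.rpow_mul htpos.le, mul_one_div_cancel hε.ne', Real.rpow_one] at this
    have h3 : (C * l ^ (n + 2 + 3)) ^ (1 / ε) =
        C ^ (1 / ε) * N ^ (1 / 4 * ((n + 2 + 3 : ℕ) : ℝ) * (1 / ε)) := by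
      rw [Real.mul_rpow hC.le (by positivity), ← Real.rpow_natCast, hldef,
        ← Real.rpow_mul (by linarith), ← Real.rpow_mul (by linarith), mul_assoc (1 / 4 : ℝ)]
    have h4 : N ^ (1 / 4 * ((n + 2 + 3 : ℕ) : ℝ) * (1 / ε)) ≤ N ^ (7 / (4 * ε ^ 2)) := by
      apply Real.rpow_le_rpow_of_exponent_le hN
      have e1 : ((n + 2 + 3 : ℕ) : ℝ) ≤ 7 / ε := by
        push_cast
        have e2 : 1 / ε + 6 ≤ 7 / ε := by
          rw [le_div_iff₀ hε, add_mul, one_div_mul_cancel hε.ne']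
          linarith
        linarith
      calc 1 / 4 * ((n + 2 + 3 : ℕ) : ℝ) * (1 / ε) ≤ 1 / 4 * (7 / ε) * (1 / ε) := by
            apply mul_le_mul_of_nonneg_right _ (by positivity)
            linarith
        _ = 7 / (4 * ε ^ 2) := by field_simp
    rw [h3] at h2
    refine h2.trans ?_
    apply mul_le_mul _ h4 (by positivity) (by linarith)
    linarith

end Pool.Agent.LibHL18
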