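import Pool.Agent.LibHL18.Bounds

/-!
The normalising power series and the final forms.
-/

namespace Pool.Agent.LibHL18

open MvPolynomial

/-- leading coefficients -/
noncomputable def aa (n : ℕ) : R2 := ev0 (lam n)

/-- second coefficients -/
noncomputable def bb (n : ℕ) : R2 := ev0 (DL (lam n))

lemma ev0_qq : ev0 qq = 0 := by simp [ev0, qq]

lemma aa_zero : aa 0 = 0 := by simp [aa, lam, ev0]

lemma aa_one : aa 1 = 1 := by simp [aa, lam]

lemma bb_zero : bb 0 = 1 := by simp [bb, lam, DL_X0, ev0]

/-- the power series `sum aa (n+1) X^n` -/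
noncomputable def GG : PowerSeries R2 := PowerSeries.mk fun n => aa (n + 1)

/-- its inverse -/
noncomputable def TT : PowerSeries R2 := PowerSeries.invOfUnit GG 1

lemma GG_TT : GG * TT = 1 := by
  apply PowerSeries.mul_invOfUnit
  simp [GG, aa_one]

lemma T_alpha : TT * PowerSeries.mk aa = PowerSeries.X := by
  have h1 : PowerSeries.mk aa = PowerSeries.X * GG := by
    ext n : 1
    cases n with
    | zero => simp [aa_zero]
    | succ n => simp [GG, PowerSeries.coeff_succ_X_mul]
  rw [h1, mul_comm TT, mul_assoc, GG_TT, mul_one]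

/-- the series of constants -/
noncomputable def PiS : PowerSeries R2 := TT * PowerSeries.mk bb

/-- the coefficients of `PiS` -/
noncomputable def pi' (n : ℕ) : R2 := PowerSeries.coeff n PiS

/-- inclusion of polynomials in `(A, B)` -/
noncomputable def inc : R2 →ₐ[ℚ] P5 := aeval ![X 3, X 4]

/-- the final forms -/
noncomputable def FF (w : ℕ) : P5 :=
  ∑ ij ∈ Finset.HasAntidiagonal.antidiagonal w, inc (PowerSeries.coeff ij.1 TT) * h ij.2
    - inc (pi' w)

lemma aeval_inc (t x y A B : ℝ) (p : R2) : aeval ![t, x, y, A, B] (inc p) = aeval ![A, B] p := by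
  rw [inc, ← AlgHom.comp_apply]
  congr 1
  apply MvPolynomial.algHom_ext
  intro i
  fin_cases i <;> simp

/-- exact expression of the final forms: `rem n` are the remainders -/
lemma FF_eq (A B y s r : ℝ) (w : ℕ) :
    aeval ![s + r, s ^ 2, y, A, B] (FF w) =
      ∑ ij ∈ Finset.HasAntidiagonal.antidiagonal w, r ^ ij.1 / (ij.1.factorial : ℝ) *
        (s * (if ij.2 = 1 then 1 else 0) + aeval ![A, B] (pi' ij.2) +
          ∑ kl ∈ Finset.HasAntidiagonal.antidiagonal ij.2,
            aeval ![A, B] (PowerSeries.coeff kl.1 TT) *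
              (aeval ![s, s ^ 2, y, A, B] (h kl.2) - s * aeval ![A, B] (aa kl.2)
                - aeval ![A, B] (bb kl.2)))
      - aeval ![A, B] (pi' w) := by
  set e : R2 →+* ℝ := ((aeval ![A, B] : R2 →ₐ[ℚ] ℝ) : R2 →+* ℝ) with he
  have hee : ∀ p, e p = aeval ![A, B] p := fun p => rfl
  -- real power series
  set Tr : PowerSeries ℝ := PowerSeries.map e TT with hTr
  set Ht : PowerSeries ℝ := PowerSeries.mk fun n => aeval ![s + r, s ^ 2, y, A, B] (h n) with hHt
  set Hs : PowerSeries ℝ := PowerSeries.mk fun n => aeval ![s, s ^ 2, y, A, B] (h n) with hHs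
  set Er : PowerSeries ℝ := PowerSeries.mk fun n => r ^ n / (n.factorial : ℝ) with hEr
  set Rr : PowerSeries ℝ := PowerSeries.mk fun n => aeval ![s, s ^ 2, y, A, B] (h n)
    - s * aeval ![A, B] (aa n) - aeval ![A, B] (bb n) with hRr
  have h1 : Ht = Er * Hs := by
    ext n : 1
    rw [PowerSeries.coeff_mul]
    simp only [hHt, hEr, hHs, PowerSeries.coeff_mk]
    exact taylor (s ^ 2) y A B n s r
  have h2 : Hs = PowerSeries.C s * PowerSeries.map e (PowerSeries.mk aa)
      + PowerSeries.map e (PowerSeries.mk bb) + Rr := by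
    ext n : 1
    simp only [hHs, hRr, map_add, PowerSeries.coeff_mk, PowerSeries.coeff_C_mul,
      PowerSeries.coeff_map, hee]
    ring
  have h3 : Tr * Hs = PowerSeries.C s * PowerSeries.X + PowerSeries.map e PiS + Tr * Rr := by
    rw [h2]
    have a1 : Tr * PowerSeries.map e (PowerSeries.mk aa) = PowerSeries.X := by
      rw [hTr, ← map_mul, T_alpha, PowerSeries.map_X]
    have a2 : Tr * PowerSeries.map e (PowerSeries.mk bb) = PowerSeries.map e PiS := by
      rw [hTr, ← map_mul, PiS]
    rw [mul_add, mul_add, a2]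
    rw [show Tr * (PowerSeries.C s * PowerSeries.map e (PowerSeries.mk aa)) =
      PowerSeries.C s * (Tr * PowerSeries.map e (PowerSeries.mk aa)) by ring, a1]
  have h4 : Tr * Ht = Er * (PowerSeries.C s * PowerSeries.X + PowerSeries.map e PiS + Tr * Rr) := by
    rw [h1, ← h3]; ring
  have h5 : aeval ![s + r, s ^ 2, y, A, B] (FF w) = PowerSeries.coeff w (Tr * Ht)
      - aeval ![A, B] (pi' w) := by
    rw [FF, map_sub, map_sum, aeval_inc, PowerSeries.coeff_mul]
    congr 1
    apply Finset.sum_congr rfl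
    intro ij _
    rw [map_mul, aeval_inc]
    simp only [hTr, hHt, PowerSeries.coeff_mk, PowerSeries.coeff_map, hee]
  rw [h5, h4, PowerSeries.coeff_mul]
  congr 1
  apply Finset.sum_congr rfl
  intro ij _
  congr 1
  · simp [hEr]
  · rw [map_add, map_add, PowerSeries.coeff_C_mul, PowerSeries.coeff_X, PowerSeries.coeff_mul]
    congr 1
    apply Finset.sum_congr rfl
    intro kl _
    simp only [hTr, hRr, PowerSeries.coeff_mk, PowerSeries.coeff_map, hee]

end Pool.Agent.LibHL18
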