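import Pool.Agent.LibHL18.Homog

/-!
The basic step: if `s |r|^n` is small then `s |r|^(n-1)` is very small.
-/

namespace Pool.Agent.LibHL18

open MvPolynomial

/-- an integer of absolute value `< 1` is zero -/
lemma int_small {D : ℕ} (hD : 0 < D) {F : ℝ} {k : ℤ} (h : (D : ℝ) * F = k)
    (hs : (D : ℝ) * |F| < 1) : F = 0 := by
  have hD' : (0 : ℝ) < D := by exact_mod_cast hD
  have h1 : |(k : ℝ)| < 1 := by
    rw [← h, abs_mul, abs_of_pos hD']; exact hs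
  have h2 : |k| < 1 := by exact_mod_cast h1
  have h3 : k = 0 := Int.abs_lt_one_iff.mp h2
  rw [h3] at h
  simp only [Int.cast_zero, mul_eq_zero] at h
  rcases h with h | h
  · exact absurd h hD'.ne'
  · exact h

/-- the real variable core -/
lemma core {n : ℕ} (hn : 3 ≤ n) {s r X p0 p1 e1 e2 F1 F2 : ℝ} {D1 D2 D3 : ℕ}
    (hD1 : 0 < D1) (hD2 : 0 < D2) (hD3 : 0 < D3) (hs : 0 < s) (hr : r ≠ 0) (hr1 : |r| ≤ 1)
    (hX : 1 ≤ X) (hp0 : |p0| ≤ X) (hp1 : |p1| ≤ X)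
    (he1 : |e1| ≤ 52 * X * |r| ^ 2) (he2 : |e2| ≤ 51 * X * |r| ^ 3)
    (hF1 : F1 = s * r ^ n / (n.factorial : ℝ) + p0 * r + e1)
    (hF2 : F2 = s * r ^ (n + 1) / ((n + 1).factorial : ℝ) + p1 * r + p0 * (r ^ 2 / 2) + e2)
    {k1 k2 k3 : ℤ} (hk1 : (D1 : ℝ) * F1 = k1) (hk2 : (D2 : ℝ) * F2 = k2)
    (hk3 : (D3 : ℝ) * p1 = k3)
    (hsmall : 240 * ((D1 : ℝ) + D2 + D3) * X * |r| ≤ 1)
    (hsn : 4 * ((D1 : ℝ) + D2 + D3) * (s * |r| ^ n) ≤ 1) :
    s * |r| ^ (n - 1) ≤ 308 * (n.factorial : ℝ) * X * |r| := by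
  have hr0 : 0 < |r| := abs_pos.mpr hr
  have hD1' : (1 : ℝ) ≤ D1 := by exact_mod_cast hD1
  have hD2' : (1 : ℝ) ≤ D2 := by exact_mod_cast hD2
  have hD3' : (1 : ℝ) ≤ D3 := by exact_mod_cast hD3
  have hr2 : |r| ^ 2 ≤ |r| := by
    rw [sq]; exact mul_le_of_le_one_right hr0.le hr1
  have hr3 : |r| ^ 3 ≤ |r| ^ 2 := pow_le_pow_of_le_one hr0.le hr1 (by norm_num)
  have hr2' : 0 < |r| ^ 2 := by positivity
  have hr3' : 0 < |r| ^ 3 := by positivity
  have hfn : (1 : ℝ) ≤ n.factorial := by exact_mod_cast Nat.factorial_pos n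
  have hfn1 : (1 : ℝ) ≤ (n + 1).factorial := by exact_mod_cast Nat.factorial_pos (n + 1)
  have hSn : 0 ≤ s * |r| ^ n := by positivity
  -- sizes
  have a1 : |s * r ^ n / (n.factorial : ℝ)| ≤ s * |r| ^ n := by
    rw [abs_div, abs_mul, abs_of_pos hs, abs_pow, abs_of_nonneg (by linarith : (0:ℝ) ≤ n.factorial)]
    exact div_le_self hSn hfn
  have a2 : |s * r ^ (n + 1) / ((n + 1).factorial : ℝ)| ≤ s * |r| ^ n * |r| := by
    rw [abs_div, abs_mul, abs_of_pos hs, abs_pow,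
      abs_of_nonneg (by linarith : (0:ℝ) ≤ (n + 1).factorial)]
    have : s * |r| ^ (n + 1) = s * |r| ^ n * |r| := by ring
    rw [this]
    exact div_le_self (by positivity) hfn1
  have b1 : |F1| ≤ s * |r| ^ n + 60 * X * |r| := by
    rw [hF1]
    have c1 : |p0 * r| ≤ X * |r| := by
      rw [abs_mul]; exact mul_le_mul_of_nonneg_right hp0 hr0.le
    have c2 : |e1| ≤ 52 * X * |r| :=
      he1.trans (mul_le_mul_of_nonneg_left hr2 (by linarith))
    have c3 := abs_add_le (s * r ^ n / (n.factorial : ℝ) + p0 * r) e1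
    have c4 := abs_add_le (s * r ^ n / (n.factorial : ℝ)) (p0 * r)
    have c5 : 0 ≤ X * |r| := by positivity
    linarith
  have b2 : |F2| ≤ s * |r| ^ n + 60 * X * |r| := by
    rw [hF2]
    have c1 : |p1 * r| ≤ X * |r| := by
      rw [abs_mul]; exact mul_le_mul_of_nonneg_right hp1 hr0.le
    have c0 : |p0 * (r ^ 2 / 2)| ≤ X * |r| := by
      rw [abs_mul, abs_div, abs_pow, abs_of_pos (by norm_num : (0:ℝ) < 2)]
      calc |p0| * (|r| ^ 2 / 2) ≤ X * (|r| ^ 2 / 2) :=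
            mul_le_mul_of_nonneg_right hp0 (by positivity)
        _ ≤ X * |r| := by
            apply mul_le_mul_of_nonneg_left _ (by linarith)
            linarith
    have c2 : |e2| ≤ 51 * X * |r| :=
      he2.trans (mul_le_mul_of_nonneg_left (hr3.trans hr2) (by linarith))
    have c3 := abs_add_le (s * r ^ (n + 1) / ((n + 1).factorial : ℝ) + p1 * r + p0 * (r ^ 2 / 2)) e2
    have c4 := abs_add_le (s * r ^ (n + 1) / ((n + 1).factorial : ℝ) + p1 * r) (p0 * (r ^ 2 / 2))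
    have c5 := abs_add_le (s * r ^ (n + 1) / ((n + 1).factorial : ℝ)) (p1 * r)
    have c6 : s * |r| ^ n * |r| ≤ s * |r| ^ n := mul_le_of_le_one_right hSn hr1
    have c7 : 0 ≤ X * |r| := by positivity
    linarith
  have hXr : 0 < X * |r| := by positivity
  have z1 : F1 = 0 := by
    apply int_small hD1 hk1
    have : (D1 : ℝ) * |F1| ≤ D1 * (s * |r| ^ n + 60 * X * |r|) :=
      mul_le_mul_of_nonneg_left b1 (by linarith)
    have e3 : 4 * ((D1 : ℝ) * (s * |r| ^ n)) ≤ 1 := by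
      have : 0 ≤ 4 * (D2 + D3 : ℝ) * (s * |r| ^ n) := by positivity
      linarith
    have e4 : 240 * ((D1 : ℝ) * (X * |r|)) ≤ 1 := by
      have : 0 ≤ 240 * (D2 + D3 : ℝ) * X * |r| := by positivity
      linarith
    linarith
  have z2 : F2 = 0 := by
    apply int_small hD2 hk2
    have : (D2 : ℝ) * |F2| ≤ D2 * (s * |r| ^ n + 60 * X * |r|) :=
      mul_le_mul_of_nonneg_left b2 (by linarith)
    have e3 : 4 * ((D2 : ℝ) * (s * |r| ^ n)) ≤ 1 := by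
      have : 0 ≤ 4 * (D1 + D3 : ℝ) * (s * |r| ^ n) := by positivity
      linarith
    have e4 : 240 * ((D2 : ℝ) * (X * |r|)) ≤ 1 := by
      have : 0 ≤ 240 * (D1 + D3 : ℝ) * X * |r| := by positivity
      linarith
    linarith
  have z3 : p1 = 0 := by
    apply int_small hD3 hk3
    rw [z2] at hF2
    have c0 : |p0 * (r ^ 2 / 2)| ≤ X * |r| ^ 2 := by
      rw [abs_mul, abs_div, abs_pow, abs_of_pos (by norm_num : (0:ℝ) < 2)]
      calc |p0| * (|r| ^ 2 / 2) ≤ X * (|r| ^ 2 / 2) :=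
            mul_le_mul_of_nonneg_right hp0 (by positivity)
        _ ≤ X * |r| ^ 2 := by
            apply mul_le_mul_of_nonneg_left _ (by linarith)
            linarith
    have c1 : |p1 * r| ≤ s * |r| ^ n * |r| + X * |r| ^ 2 + 51 * X * |r| ^ 3 := by
      have : p1 * r = -(s * r ^ (n + 1) / ((n + 1).factorial : ℝ) + p0 * (r ^ 2 / 2) + e2) := by
        linarith
      rw [this, abs_neg]
      have c3 := abs_add_le (s * r ^ (n + 1) / ((n + 1).factorial : ℝ) + p0 * (r ^ 2 / 2)) e2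
      have c4 := abs_add_le (s * r ^ (n + 1) / ((n + 1).factorial : ℝ)) (p0 * (r ^ 2 / 2))
      linarith
    rw [abs_mul] at c1
    have c2 : |p1| * |r| ≤ (s * |r| ^ n + X * |r| + 51 * X * |r| ^ 2) * |r| := by
      refine c1.trans (le_of_eq ?_); ring
    have c3 : |p1| ≤ s * |r| ^ n + X * |r| + 51 * X * |r| ^ 2 := le_of_mul_le_mul_right c2 hr0
    have c4 : |p1| ≤ s * |r| ^ n + 52 * (X * |r|) := by
      have := mul_le_mul_of_nonneg_left hr2 (by linarith : (0:ℝ) ≤ 51 * X)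
      linarith
    have : (D3 : ℝ) * |p1| ≤ D3 * (s * |r| ^ n + 52 * (X * |r|)) :=
      mul_le_mul_of_nonneg_left c4 (by linarith)
    have e3 : 4 * ((D3 : ℝ) * (s * |r| ^ n)) ≤ 1 := by
      have : 0 ≤ 4 * (D1 + D2 : ℝ) * (s * |r| ^ n) := by positivity
      linarith
    have e4 : 240 * ((D3 : ℝ) * (X * |r|)) ≤ 1 := by
      have : 0 ≤ 240 * (D1 + D2 : ℝ) * X * |r| := by positivity
      linarith
    linarith
  -- conclusion
  rw [z1] at hF1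
  rw [z2, z3] at hF2
  obtain ⟨m, rfl⟩ : ∃ m, n = m + 1 := ⟨n - 1, by omega⟩
  simp only [Nat.add_sub_cancel]
  set f : ℝ := ((m + 1).factorial : ℝ) with hf
  have hf2 : ((m + 1 + 1).factorial : ℝ) = ((m : ℝ) + 2) * f := by
    rw [Nat.factorial_succ (m + 1), hf]; push_cast; ring
  rw [hf2] at hF2
  have hm : (2 : ℝ) ≤ m := by
    have : 2 ≤ m := by omega
    exact_mod_cast this
  have hfpos : 0 < f := by linarith
  -- combine
  have key : s * r ^ m * ((m : ℝ) / (2 * ((m : ℝ) + 2) * f)) * r ^ 2 = -(e1 * r / 2) + e2 := by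
    have h1 : e1 = -(s * r ^ (m + 1) / f + p0 * r) := by linarith
    have h2 : e2 = -(s * r ^ (m + 1 + 1) / (((m : ℝ) + 2) * f) + p0 * (r ^ 2 / 2)) := by linarith
    rw [h1, h2]
    field_simp
    ring
  have hq : (1 : ℝ) / (4 * f) ≤ (m : ℝ) / (2 * ((m : ℝ) + 2) * f) := by
    rw [div_le_div_iff₀ (by positivity) (by positivity)]
    nlinarith
  have k1 : |s * r ^ m * ((m : ℝ) / (2 * ((m : ℝ) + 2) * f)) * r ^ 2| ≤ 77 * X * |r| ^ 3 := by
    rw [key]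
    have g1 := abs_add_le (-(e1 * r / 2)) e2
    have g2 : |-(e1 * r / 2)| ≤ 26 * X * |r| ^ 3 := by
      rw [abs_neg, abs_div, abs_mul, abs_of_pos (by norm_num : (0:ℝ) < 2)]
      have : |e1| * |r| ≤ 52 * X * |r| ^ 2 * |r| := mul_le_mul_of_nonneg_right he1 hr0.le
      have e5 : 52 * X * |r| ^ 2 * |r| = 2 * (26 * X * |r| ^ 3) := by ring
      linarith
    linarith
  rw [abs_mul, abs_mul, abs_mul, abs_of_pos hs, abs_pow, abs_pow,
    abs_of_nonneg (by positivity : (0:ℝ) ≤ (m : ℝ) / (2 * ((m : ℝ) + 2) * f))] at k1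
  have k2 : s * |r| ^ m * (1 / (4 * f)) * |r| ^ 2 ≤ (77 * X * |r|) * |r| ^ 2 := by
    calc s * |r| ^ m * (1 / (4 * f)) * |r| ^ 2
        ≤ s * |r| ^ m * ((m : ℝ) / (2 * ((m : ℝ) + 2) * f)) * |r| ^ 2 := by
          apply mul_le_mul_of_nonneg_right _ hr2'.le
          apply mul_le_mul_of_nonneg_left hq (by positivity)
      _ ≤ 77 * X * |r| ^ 3 := k1
      _ = (77 * X * |r|) * |r| ^ 2 := by ring
  have k3 := le_of_mul_le_mul_right k2 hr2'
  have k4 : s * |r| ^ m = (s * |r| ^ m * (1 / (4 * f))) * (4 * f) := by field_simp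
  rw [k4]
  calc s * |r| ^ m * (1 / (4 * f)) * (4 * f) ≤ (77 * X * |r|) * (4 * f) :=
        mul_le_mul_of_nonneg_right k3 (by positivity)
    _ = 308 * f * X * |r| := by ring

/-- the basic step for integral points -/
theorem step (n : ℕ) (hn : 3 ≤ n) : ∃ d C : ℝ, 0 < d ∧ 0 < C ∧
    ∀ (A B t x y : ℤ) (l z : ℝ), 1 ≤ l → Adm A B (l ^ 4) z → ((x : ℝ) = (z⁻¹) ^ 2) →
      ((y : ℝ) = yv A B z) → (t : ℝ) - z⁻¹ ≠ 0 → |(t : ℝ) - z⁻¹| ≤ 1 →
      1 ≤ 50 * (z⁻¹ * |(t : ℝ) - z⁻¹| ^ 3) →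
      C * l ^ (n + 3) * |(t : ℝ) - z⁻¹| ≤ 1 → z⁻¹ * |(t : ℝ) - z⁻¹| ^ n ≤ d →
      z⁻¹ * |(t : ℝ) - z⁻¹| ^ (n - 1) ≤ C * l ^ (n + 3) * |(t : ℝ) - z⁻¹| := by
  obtain ⟨C1, hC1, H1⟩ := asympS (n - 1)
  obtain ⟨C2, hC2, H2⟩ := asympS n
  obtain ⟨P, hP, HP⟩ := piS n
  obtain ⟨Q, hQ, HQ⟩ := piS (n - 1)
  obtain ⟨R, hR, HR⟩ := piS (n + 1)
  obtain ⟨D1, hD1, I1⟩ := integrality (FF (n + 1))
  obtain ⟨D2, hD2, I2⟩ := integrality (FF (n + 2))
  obtain ⟨D3, hD3, I3⟩ := integrality (pi' (n + 1))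
  have hD1' : (1 : ℝ) ≤ D1 := by exact_mod_cast hD1
  have hD2' : (1 : ℝ) ≤ D2 := by exact_mod_cast hD2
  have hD3' : (1 : ℝ) ≤ D3 := by exact_mod_cast hD3
  set K : ℝ := C1 + C2 + P + Q + R + 1 with hK
  have hK1 : 1 ≤ K := by linarith
  set c := n + 3 with hc
  have hfn : (1 : ℝ) ≤ n.factorial := by exact_mod_cast Nat.factorial_pos n
  refine ⟨1 / (4 * ((D1 : ℝ) + D2 + D3)),
    (240 * ((D1 : ℝ) + D2 + D3) + 308 * (n.factorial : ℝ)) * K, by positivity, by positivity, ?_⟩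
  intro A B t x y l z hl hA hx hy hr0 hr1 h50 hsmall hsn
  have hz := hA.hz
  have hs : 0 < z⁻¹ := inv_pos.mpr hz
  set r : ℝ := (t : ℝ) - z⁻¹ with hr
  have hrpos : 0 < |r| := abs_pos.mpr hr0
  set X : ℝ := K * l ^ c with hX
  have hNc : 1 ≤ l ^ c := one_le_pow₀ hl
  have hX1 : 1 ≤ X := one_le_mul_of_one_le_of_one_le hK1 hNc
  have up : ∀ (a : ℝ) (e : ℕ), 0 ≤ a → a ≤ K → e ≤ c → a * l ^ e ≤ X := by
    intro a e ha haK hec
    calc a * l ^ e ≤ a * l ^ c := mul_le_mul_of_nonneg_left (pow_le_pow_right₀ hl hec) ha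
      _ ≤ K * l ^ c := mul_le_mul_of_nonneg_right haK (by linarith)
  have hzr : z ≤ 50 * |r| ^ 3 := by
    have : z * 1 ≤ z * (50 * (z⁻¹ * |r| ^ 3)) := mul_le_mul_of_nonneg_left h50 hz.le
    have e : z * (50 * (z⁻¹ * |r| ^ 3)) = 50 * |r| ^ 3 := by field_simp
    linarith
  have tr : z⁻¹ + r = t := by rw [hr]; ring
  have pt : (![z⁻¹ + r, (z⁻¹) ^ 2, yv A B z, (A : ℝ), (B : ℝ)] : Fin 5 → ℝ) =
      fun i => ((![t, x, y, A, B] : Fin 5 → ℤ) i : ℝ) := by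
    rw [tr, ← hx, ← hy]
    ext i
    fin_cases i <;> simp
  have h1 := H1 A B l z r hl hA hr1
  have h2 := H2 A B l z r hl hA hr1
  have m1 : n - 1 + 2 = n + 1 := by omega
  have m2 : n - 1 + 1 = n := by omega
  have m3 : n - 1 + 3 = n + 2 := by omega
  rw [m1, m2, m3] at h1
  rw [pt] at h1 h2
  obtain ⟨k1, hk1⟩ := I1 ![t, x, y, A, B]
  obtain ⟨k2, hk2⟩ := I2 ![t, x, y, A, B]
  obtain ⟨k3, hk3⟩ := I3 ![A, B]
  have pt2 : (fun i => ((![A, B] : Fin 2 → ℤ) i : ℝ)) = ![(A : ℝ), (B : ℝ)] := by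
    ext i
    fin_cases i <;> simp
  rw [pt2] at hk3
  set F1 : ℝ := aeval (fun i => ((![t, x, y, A, B] : Fin 5 → ℤ) i : ℝ)) (FF (n + 1)) with hF1
  set F2 : ℝ := aeval (fun i => ((![t, x, y, A, B] : Fin 5 → ℤ) i : ℝ)) (FF (n + 2)) with hF2
  have hp0 : |aeval ![(A : ℝ), (B : ℝ)] (pi' n)| ≤ X :=
    (HP A B l hl hA.hA hA.hB).trans (up P n hP (by linarith) (by omega))
  have hpm : |aeval ![(A : ℝ), (B : ℝ)] (pi' (n - 1))| ≤ X :=
    (HQ A B l hl hA.hA hA.hB).trans (up Q (n - 1) hQ (by linarith) (by omega))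
  have hp1 : |aeval ![(A : ℝ), (B : ℝ)] (pi' (n + 1))| ≤ X :=
    (HR A B l hl hA.hA hA.hB).trans (up R (n + 1) hR (by linarith) (by omega))
  have hr2' : 0 < |r| ^ 2 := by positivity
  have hr32 : |r| ^ 3 ≤ |r| ^ 2 := pow_le_pow_of_le_one (abs_nonneg _) hr1 (by norm_num)
  set e1' : ℝ := F1 - (z⁻¹ * r ^ n / (n.factorial : ℝ) + aeval ![(A : ℝ), (B : ℝ)] (pi' n) * r
      + aeval ![(A : ℝ), (B : ℝ)] (pi' (n - 1)) * (r ^ 2 / 2)) with he1'
  set e2' : ℝ := F2 - (z⁻¹ * r ^ (n + 1) / ((n + 1).factorial : ℝ)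
      + aeval ![(A : ℝ), (B : ℝ)] (pi' (n + 1)) * r
      + aeval ![(A : ℝ), (B : ℝ)] (pi' n) * (r ^ 2 / 2)) with he2'
  have g1 : |e1'| ≤ 51 * X * |r| ^ 3 := by
    refine h1.trans ?_
    calc C1 * l ^ (n + 2) * (|r| ^ 3 + z) ≤ X * (|r| ^ 3 + 50 * |r| ^ 3) := by
          apply mul_le_mul (up C1 (n + 2) hC1 (by linarith) (by omega)) (by linarith)
            (by positivity) (by linarith)
      _ = 51 * X * |r| ^ 3 := by ring
  have g2 : |e2'| ≤ 51 * X * |r| ^ 3 := by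
    refine h2.trans ?_
    calc C2 * l ^ (n + 3) * (|r| ^ 3 + z) ≤ X * (|r| ^ 3 + 50 * |r| ^ 3) := by
          apply mul_le_mul (up C2 (n + 3) hC2 (by linarith) (by omega)) (by linarith)
            (by positivity) (by linarith)
      _ = 51 * X * |r| ^ 3 := by ring
  have g3 : |aeval ![(A : ℝ), (B : ℝ)] (pi' (n - 1)) * (r ^ 2 / 2) + e1'| ≤ 52 * X * |r| ^ 2 := by
    refine (abs_add_le _ _).trans ?_
    have : |aeval ![(A : ℝ), (B : ℝ)] (pi' (n - 1)) * (r ^ 2 / 2)| ≤ X * |r| ^ 2 := by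
      rw [abs_mul, abs_div, abs_pow, abs_of_pos (by norm_num : (0:ℝ) < 2)]
      calc |aeval ![(A : ℝ), (B : ℝ)] (pi' (n - 1))| * (|r| ^ 2 / 2) ≤ X * (|r| ^ 2 / 2) :=
            mul_le_mul_of_nonneg_right hpm (by positivity)
        _ ≤ X * |r| ^ 2 := by
            apply mul_le_mul_of_nonneg_left _ (by linarith)
            linarith
    have : 51 * X * |r| ^ 3 ≤ 51 * X * |r| ^ 2 := by
      apply mul_le_mul_of_nonneg_left hr32 (by linarith)
    linarith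
  have hDD : 0 < (D1 : ℝ) + D2 + D3 := by linarith
  have hXr : 0 ≤ X * |r| := by positivity
  have fin := core (n := n) hn (s := z⁻¹) (r := r) (X := X)
    (p0 := aeval ![(A : ℝ), (B : ℝ)] (pi' n)) (p1 := aeval ![(A : ℝ), (B : ℝ)] (pi' (n + 1)))
    (e1 := aeval ![(A : ℝ), (B : ℝ)] (pi' (n - 1)) * (r ^ 2 / 2) + e1') (e2 := e2')
    (F1 := F1) (F2 := F2) hD1 hD2 hD3 hs hr0 hr1 hX1 hp0 hp1 g3 g2 (by rw [he1']; ring)
    (by rw [he2']; ring) hk1 hk2 hk3 ?_ ?_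
  · refine fin.trans ?_
    have : 308 * (n.factorial : ℝ) * (X * |r|) ≤
        (240 * ((D1 : ℝ) + D2 + D3) + 308 * (n.factorial : ℝ)) * (X * |r|) :=
      mul_le_mul_of_nonneg_right (by linarith) hXr
    calc 308 * (n.factorial : ℝ) * X * |r| = 308 * (n.factorial : ℝ) * (X * |r|) := by ring
      _ ≤ _ := this
      _ = _ := by rw [hX]; ring
  · have : 240 * ((D1 : ℝ) + D2 + D3) * (X * |r|) ≤
        (240 * ((D1 : ℝ) + D2 + D3) + 308 * (n.factorial : ℝ)) * (X * |r|) :=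
      mul_le_mul_of_nonneg_right (by linarith) hXr
    have e : (240 * ((D1 : ℝ) + D2 + D3) + 308 * (n.factorial : ℝ)) * (X * |r|) =
        (240 * ((D1 : ℝ) + D2 + D3) + 308 * (n.factorial : ℝ)) * K * l ^ c * |r| := by
      rw [hX]; ring
    calc 240 * ((D1 : ℝ) + D2 + D3) * X * |r| = 240 * ((D1 : ℝ) + D2 + D3) * (X * |r|) := by ring
      _ ≤ _ := this
      _ = _ := e
      _ ≤ 1 := hsmall
  · have := mul_le_mul_of_nonneg_left hsn (by positivity : 0 ≤ 4 * ((D1 : ℝ) + D2 + D3))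
    rwa [mul_one_div_cancel (by positivity)] at this

end Pool.Agent.LibHL18
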